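import Pool.Agent.MP_4cdbcc_ag.Hilb

/-! Complete intersections: Hilbert series, lengths. -/

namespace Pool.Agent.MP_4cdbcc_ag

open MvPolynomial Module

variable {σ : Type} {K : Type} [Field K]

theorem finrank_map_add {V W : Type} [AddCommGroup V] [Module K V] [AddCommGroup W] [Module K W]
    (f : V →ₗ[K] W) (p : Submodule K V) [Module.Finite K p] :
    finrank K (p.map f) + finrank K (p ⊓ LinearMap.ker f : Submodule K V) = finrank K p := by
  have h := (f.domRestrict p).finrank_range_add_finrank_ker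
  rw [LinearMap.range_domRestrict, LinearMap.ker_domRestrict] at h
  rw [← h]
  congr 1
  rw [← Submodule.map_comap_subtype]
  exact (Submodule.equivMapOfInjective _ p.injective_subtype _).finrank_eq.symm

/-- the Hilbert series of a polynomial ring in `n` variables -/
noncomputable def T0 (n : ℕ) : PowerSeries ℤ := (PowerSeries.mk 1) ^ n

theorem dI_top [Fintype σ] (m : ℕ) :
    (dI (⊤ : Ideal (MvPolynomial σ K)) m : ℤ) = PowerSeries.coeff m (T0 (Fintype.card σ)) := by
  classical
  have h1 : pc (⊤ : Ideal (MvPolynomial σ K)) m = Submodule.span K (Set.range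
      fun l : (Finset.finsuppAntidiag (Finset.univ : Finset σ) m) =>
        (monomial l.1 1 : MvPolynomial σ K)) := by
    have : pc (⊤ : Ideal (MvPolynomial σ K)) m = homogeneousSubmodule σ K m := by
      ext y; exact ⟨fun h => h.1, fun h => ⟨h, Submodule.mem_top⟩⟩
    rw [this, homogeneousSubmodule_eq_finsupp_supported, AddMonoidAlgebra.supported_eq_span_single]
    congr 1
    ext y
    simp only [Set.mem_image, Set.mem_ofPred_eq, Set.mem_range, Subtype.exists,
      Finset.mem_finsuppAntidiag, Finsupp.degree_eq_sum, MvPolynomial.single_eq_monomial]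
    constructor
    · rintro ⟨l, hl, rfl⟩
      exact ⟨l, ⟨hl, Finset.subset_univ _⟩, rfl⟩
    · rintro ⟨l, hl, rfl⟩
      exact ⟨l, hl.1, rfl⟩
  have h2 : LinearIndependent K fun l : (Finset.finsuppAntidiag (Finset.univ : Finset σ) m) =>
      (monomial l.1 1 : MvPolynomial σ K) := by
    have := (basisMonomials σ K).linearIndependent.comp
      (fun l : (Finset.finsuppAntidiag (Finset.univ : Finset σ) m) => l.1) Subtype.val_injective
    simpa [Function.comp_def] using this
  unfold dI T0
  rw [h1, finrank_span_eq_card h2, ← Finset.card_univ (α := σ), ← Finset.prod_const,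
    PowerSeries.coeff_prod]
  simp

theorem HS_bot [Fintype σ] : HS (⊥ : Ideal (MvPolynomial σ K)) = T0 (Fintype.card σ) := by
  ext m
  rw [← dI_top (K := K), HS, PowerSeries.coeff_mk, H]
  have : pc (⊥ : Ideal (MvPolynomial σ K)) m = ⊥ := by
    rw [eq_bot_iff]; intro y hy; exact hy.2
  rw [dI, dI, this]; simp

theorem steps [Finite σ] {ι : Type} (y : ι → MvPolynomial σ K) (d : ι → ℕ)
    (hy : ∀ i, (y i).IsHomogeneous (d i)) (hd : ∀ i, 1 ≤ d i) {I : Ideal (MvPolynomial σ K)}
    (hI : Hom I) {T : PowerSeries ℤ} (s : Finset ι) :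
    (Pos (HS I - T) →
      Pos (HS (I ⊔ Ideal.span (y '' s)) - (∏ i ∈ s, (1 - PowerSeries.X ^ d i)) * T)) ∧
    (HS I - T = 0 →
      HS (I ⊔ Ideal.span (y '' s)) - (∏ i ∈ s, (1 - PowerSeries.X ^ d i)) * T = 0 ∨
      Pos (HS (I ⊔ Ideal.span (y '' s)) - (∏ i ∈ s, (1 - PowerSeries.X ^ d i)) * T)) := by
  classical
  induction s using Finset.induction_on with
  | empty => simp; tauto
  | insert j s hj ih =>
    have hH : Hom (I ⊔ Ideal.span (y '' s)) :=
      hI.sup (hom_span _ (by rintro _ ⟨i, _, rfl⟩; exact ⟨_, hy i⟩))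
    have e1 : I ⊔ Ideal.span (y '' (insert j s : Finset ι)) =
        (I ⊔ Ideal.span (y '' s)) ⊔ Ideal.span {y j} := by
      rw [Finset.coe_insert, Set.image_insert_eq, Ideal.span_insert, sup_comm (Ideal.span {y j}),
        sup_assoc]
    rw [e1, Finset.prod_insert hj, mul_assoc]
    constructor
    · intro h
      rcases step hH (hy j) (hd j) (Or.inr (ih.1 h)) with h1 | h1
      · exact absurd (ih.1 h) (by rw [h1.1]; exact not_pos (by simp))
      · exact h1
    · intro h
      rcases step hH (hy j) (hd j) (ih.2 h) with h1 | h1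
      · exact Or.inl h1.2.2
      · exact Or.inr h1

/-- comparison of the ideal of a family of forms with a complete intersection -/
theorem fam [Fintype σ] {ι : Type} [Fintype ι] (y : ι → MvPolynomial σ K) (d : ι → ℕ)
    (hy : ∀ i, (y i).IsHomogeneous (d i)) (hd : ∀ i, 1 ≤ d i) :
    HS (Ideal.span (Set.range y)) - (∏ i, (1 - PowerSeries.X ^ d i)) * T0 (Fintype.card σ) = 0 ∨
      Pos (HS (Ideal.span (Set.range y)) -
        (∏ i, (1 - PowerSeries.X ^ d i)) * T0 (Fintype.card σ)) := by
  have := (steps y d hy hd hom_bot (T := T0 (Fintype.card σ)) Finset.univ).2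
    (by rw [HS_bot, sub_self])
  simpa using this

/-- two more forms -/
theorem two [Finite σ] {I : Ideal (MvPolynomial σ K)} (hI : Hom I) {T : PowerSeries ℤ}
    (h : HS I - T = 0 ∨ Pos (HS I - T)) {y z : MvPolynomial σ K} {a b : ℕ}
    (hy : y.IsHomogeneous a) (hz : z.IsHomogeneous b) (ha : 1 ≤ a) (hb : 1 ≤ b)
    (hle : ∀ m, H (I ⊔ Ideal.span {y} ⊔ Ideal.span {z}) m ≤
      PowerSeries.coeff m ((1 - PowerSeries.X ^ b) * ((1 - PowerSeries.X ^ a) * T))) :
    HS I = T ∧ NZ I y ∧ NZ (I ⊔ Ideal.span {y}) z := by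
  have hn : ¬ Pos (HS (I ⊔ Ideal.span {y} ⊔ Ideal.span {z}) -
      (1 - PowerSeries.X ^ b) * ((1 - PowerSeries.X ^ a) * T)) := by
    refine not_pos fun m => ?_
    rw [map_sub, HS, PowerSeries.coeff_mk]
    have := hle m
    omega
  rcases step hI hy ha h with h1 | h1
  · rcases step (hI.sup_one hy) hz hb (Or.inl h1.2.2) with h2 | h2
    · exact ⟨sub_eq_zero.1 h1.1, h1.2.1, h2.2.1⟩
    · exact absurd h2 hn
  · rcases step (hI.sup_one hy) hz hb (Or.inr h1) with h2 | h2
    · exact absurd h1 (by rw [h2.1]; exact not_pos (by simp))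
    · exact absurd h2 hn

/-- polynomials of degree less than `N` -/
noncomputable def low (σ K : Type) [Field K] (N : ℕ) : Submodule K (MvPolynomial σ K) where
  carrier := {y | ∀ m, N ≤ m → homogeneousComponent m y = 0}
  add_mem' := fun ha hb m hm => by rw [map_add, ha m hm, hb m hm, add_zero]
  zero_mem' := fun m _ => map_zero _
  smul_mem' := fun c y hy m hm => by rw [map_smul, hy m hm, smul_zero]

theorem mem_low {N : ℕ} {y : MvPolynomial σ K} :
    y ∈ low σ K N ↔ ∀ m, N ≤ m → homogeneousComponent m y = 0 := Iff.rfl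

theorem low_succ {I : Ideal (MvPolynomial σ K)} (hI : Hom I) (N : ℕ) :
    low σ K (N + 1) ⊓ I.restrictScalars K = (low σ K N ⊓ I.restrictScalars K) ⊔ pc I N := by
  apply le_antisymm
  · rintro y ⟨h1, h2⟩
    have : y = (y - homogeneousComponent N y) + homogeneousComponent N y := by ring
    rw [this]
    refine add_mem (Submodule.mem_sup_left ⟨fun m hm => ?_, I.sub_mem h2 (hI N y h2)⟩)
      (Submodule.mem_sup_right ⟨homogeneousComponent_isHomogeneous _ _, hI N y h2⟩)
    rw [map_sub, homogeneousComponent_of_mem (homogeneousComponent_mem N y)]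
    split_ifs with h
    · rw [h, sub_self]
    · rw [h1 m (by omega), sub_zero]
  · refine sup_le (fun y hy => ⟨fun m hm => hy.1 m (by omega), hy.2⟩) fun y hy => ⟨fun m hm => ?_, hy.2⟩
    rw [homogeneousComponent_of_mem hy.1, if_neg (by omega)]

theorem low_zero : low σ K 0 = ⊥ := by
  rw [eq_bot_iff]
  intro y hy
  rw [Submodule.mem_bot, ← sum_homogeneousComponent y]
  exact Finset.sum_eq_zero fun m _ => hy m (Nat.zero_le _)

theorem low_dim [Finite σ] {I : Ideal (MvPolynomial σ K)} (hI : Hom I) (N : ℕ) :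
    Module.Finite K (low σ K N ⊓ I.restrictScalars K : Submodule K (MvPolynomial σ K)) ∧
      finrank K (low σ K N ⊓ I.restrictScalars K : Submodule K (MvPolynomial σ K)) =
        ∑ m ∈ Finset.range N, dI I m := by
  induction N with
  | zero => rw [low_zero, bot_inf_eq]; exact ⟨inferInstance, by simp⟩
  | succ N ih =>
    obtain ⟨h1, h2⟩ := ih
    rw [low_succ hI]
    refine ⟨inferInstance, ?_⟩
    have h3 := Submodule.finrank_sup_add_finrank_inf_eq (low σ K N ⊓ I.restrictScalars K) (pc I N)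
    have h4 : (low σ K N ⊓ I.restrictScalars K) ⊓ pc I N = ⊥ := by
      rw [eq_bot_iff]
      rintro y ⟨hy, hy'⟩
      rw [Submodule.mem_bot, ← homogeneousComponent_eq_self hy'.1]
      exact hy.1 N le_rfl
    rw [h4, finrank_bot, add_zero, h2] at h3
    rw [h3, Finset.sum_range_succ]
    rfl

instance fd_low [Finite σ] (N : ℕ) : Module.Finite K (low σ K N) := by
  have := (low_dim (σ := σ) (K := K) hom_top N).1
  rwa [Submodule.restrictScalars_top, inf_top_eq] at this

/-- the image of the polynomials of degree less than `N` in the quotient -/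
noncomputable def Fl (I : Ideal (MvPolynomial σ K)) (N : ℕ) :
    Submodule K (MvPolynomial σ K ⧸ I) := (low σ K N).map (Ideal.Quotient.mkₐ K I).toLinearMap

instance fd_Fl [Finite σ] (I : Ideal (MvPolynomial σ K)) (N : ℕ) : Module.Finite K (Fl I N) :=
  Module.Finite.map _ _

theorem ker_mk (I : Ideal (MvPolynomial σ K)) :
    LinearMap.ker (Ideal.Quotient.mkₐ K I).toLinearMap = I.restrictScalars K := by
  ext y
  simp [Ideal.Quotient.eq_zero_iff_mem]

theorem finrank_Fl [Finite σ] {I : Ideal (MvPolynomial σ K)} (hI : Hom I) (N : ℕ) :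
    (finrank K (Fl I N) : ℤ) = ∑ m ∈ Finset.range N, H I m := by
  have h1 := finrank_map_add (Ideal.Quotient.mkₐ K I).toLinearMap (low σ K N)
  have h2 := (low_dim (σ := σ) (K := K) hom_top N).2
  rw [Submodule.restrictScalars_top, inf_top_eq] at h2
  rw [ker_mk, (low_dim hI N).2, h2] at h1
  unfold H Fl
  rw [Finset.sum_sub_distrib]
  have := congrArg (Nat.cast : ℕ → ℤ) h1
  push_cast at this
  omega

theorem finrank_piece [Finite σ] (I : Ideal (MvPolynomial σ K)) (m : ℕ) :
    (finrank K ((homogeneousSubmodule σ K m).map (Ideal.Quotient.mkₐ K I).toLinearMap) : ℤ) =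
      H I m := by
  have h1 := finrank_map_add (Ideal.Quotient.mkₐ K I).toLinearMap (homogeneousSubmodule σ K m)
  rw [ker_mk] at h1
  have : pc (⊤ : Ideal (MvPolynomial σ K)) m = homogeneousSubmodule σ K m := by
    ext y; exact ⟨fun h => h.1, fun h => ⟨h, Submodule.mem_top⟩⟩
  unfold H dI
  rw [this, pc]
  omega

theorem Fl_eq_top [Finite σ] {I : Ideal (MvPolynomial σ K)} {N : ℕ}
    (h : ∀ m, N ≤ m → H I m = 0) : Fl I N = ⊤ := by
  rw [eq_top_iff]
  rintro y -
  obtain ⟨y, rfl⟩ := Ideal.Quotient.mk_surjective y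
  rw [← sum_homogeneousComponent y, map_sum]
  refine Submodule.sum_mem _ fun m _ => ?_
  by_cases hm : N ≤ m
  · rw [Ideal.Quotient.eq_zero_iff_mem.2
      (H_eq_zero_iff.1 (h m hm) _ (homogeneousComponent_isHomogeneous _ _))]
    exact zero_mem _
  · refine ⟨_, fun k hk => ?_, rfl⟩
    rw [homogeneousComponent_of_mem (homogeneousComponent_mem m y), if_neg (by omega)]

theorem finrank_quot [Finite σ] {I : Ideal (MvPolynomial σ K)} (hI : Hom I) {N : ℕ}
    (h : ∀ m, N ≤ m → H I m = 0) :
    Module.Finite K (MvPolynomial σ K ⧸ I) ∧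
      (finrank K (MvPolynomial σ K ⧸ I) : ℤ) = ∑ m ∈ Finset.range N, H I m := by
  have h1 := finrank_Fl hI N
  have h2 := fd_Fl I N
  rw [Fl_eq_top h] at h1 h2
  rw [finrank_top] at h1
  exact ⟨Module.Finite.of_surjective (⊤ : Submodule K _).subtype fun y => ⟨⟨y, trivial⟩, rfl⟩, h1⟩

/-- the numerator of the Hilbert series of a complete intersection -/
noncomputable def num {ι : Type} [Fintype ι] (d : ι → ℕ) : Polynomial ℤ :=
  ∏ i, ∑ j ∈ Finset.range (d i), Polynomial.X ^ j

theorem num_eval {ι : Type} [Fintype ι] (d : ι → ℕ) : (num d).eval 1 = ∏ i, (d i : ℤ) := by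
  simp [num, Polynomial.eval_prod, Polynomial.eval_finsetSum]

theorem num_deg {ι : Type} [Fintype ι] (d : ι → ℕ) : (num d).natDegree ≤ ∑ i, (d i - 1) := by
  refine (Polynomial.natDegree_prod_le _ _).trans (Finset.sum_le_sum fun i _ => ?_)
  refine Polynomial.natDegree_sum_le_of_forall_le _ _ fun j hj => ?_
  rw [Polynomial.natDegree_X_pow]
  have := Finset.mem_range.1 hj
  omega

theorem num_eq {ι : Type} [Fintype ι] (d : ι → ℕ) (k : ℕ) :
    (∏ i, (1 - PowerSeries.X ^ d i)) * T0 (Fintype.card ι + k) =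
      (num d : PowerSeries ℤ) * T0 k := by
  have h1 : ∀ i, (1 - PowerSeries.X ^ d i : PowerSeries ℤ) * PowerSeries.mk 1 =
      ((∑ j ∈ Finset.range (d i), Polynomial.X ^ j : Polynomial ℤ) : PowerSeries ℤ) := by
    intro i
    rw [← mul_neg_geom_sum, mul_right_comm, mul_comm (1 - PowerSeries.X),
      PowerSeries.mk_one_mul_one_sub_eq_one, one_mul]
    rw [← Polynomial.coeToPowerSeries.ringHom_apply, map_sum]
    simp
  unfold T0 num
  rw [pow_add, ← mul_assoc, ← Finset.card_univ, ← Finset.prod_const, ← Finset.prod_mul_distrib,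
    ← Polynomial.coeToPowerSeries.ringHom_apply, map_prod]
  simp only [h1, Polynomial.coeToPowerSeries.ringHom_apply]

theorem finrank_of_poly [Finite σ] {I : Ideal (MvPolynomial σ K)} (hI : Hom I) {p : Polynomial ℤ}
    (h : HS I = p) :
    Module.Finite K (MvPolynomial σ K ⧸ I) ∧
      (finrank K (MvPolynomial σ K ⧸ I) : ℤ) = p.eval 1 ∧ ∀ m, p.natDegree < m → H I m = 0 := by
  have h1 : ∀ m, H I m = p.coeff m := fun m => by
    have := congrArg (PowerSeries.coeff m) h
    simpa [HS] using this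
  have h2 : ∀ m, p.natDegree + 1 ≤ m → H I m = 0 := fun m hm => by
    rw [h1, Polynomial.coeff_eq_zero_of_natDegree_lt hm]
  obtain ⟨h3, h4⟩ := finrank_quot hI h2
  refine ⟨h3, ?_, h2⟩
  rw [h4, Polynomial.eval_eq_sum_range]
  simp [h1]

/-- linear growth in dimension two -/
theorem growth {I : Ideal (MvPolynomial σ K)} {p : Polynomial ℤ}
    (h : HS I = p * T0 2) (j : ℕ) (hj : p.natDegree ≤ j) : H I (j + 1) = H I j + p.eval 1 := by
  have h1 : (1 - PowerSeries.X ^ 1) * HS I = (p : PowerSeries ℤ) * PowerSeries.mk 1 := by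
    rw [h, T0, pow_one, pow_two]
    have := PowerSeries.mk_one_mul_one_sub_eq_one ℤ
    linear_combination ((p : PowerSeries ℤ) * PowerSeries.mk 1 : PowerSeries ℤ) * this
  have h2 := congrArg (PowerSeries.coeff (j + 1)) h1
  rw [sub_mul, one_mul, map_sub, PowerSeries.coeff_X_pow_mul, PowerSeries.coeff_mul,
    Finset.Nat.sum_antidiagonal_eq_sum_range_succ_mk] at h2
  simp only [HS, PowerSeries.coeff_mk, Polynomial.coeff_coe, Pi.one_apply, mul_one] at h2
  rw [Polynomial.eval_eq_sum_range' (n := (j + 1).succ) (by omega)]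
  simp only [one_pow, mul_one]
  omega

end Pool.Agent.MP_4cdbcc_ag
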