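import Pool.Agent.MP_4cdbcc_ag.Rank

/-! Lengths: exact sequences, powers, Frobenius. -/

namespace Pool.Agent.MP_4cdbcc_ag

open MvPolynomial Module

section Len

variable (K : Type) {R : Type} [Field K] [CommRing R] [Algebra K R]

theorem len_exact (I : Ideal R) (y : R) :
    ∃ (μ : (R ⧸ I.colon {y}) →ₗ[K] R ⧸ I) (π : (R ⧸ I) →ₗ[K] R ⧸ (I ⊔ Ideal.span {y})),
      Function.Injective μ ∧ Function.Surjective π ∧ Function.Exact μ π := by
  let μ : (R ⧸ I.colon {y}) →ₗ[R] R ⧸ I :=
    Submodule.mapQ _ _ (LinearMap.toSpanSingleton R R y) fun r hr => mem_col.1 hr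
  let π : (R ⧸ I) →ₗ[R] R ⧸ (I ⊔ Ideal.span {y}) :=
    Submodule.mapQ _ _ LinearMap.id fun r hr => Ideal.mem_sup_left hr
  refine ⟨μ.restrictScalars K, π.restrictScalars K, ?_, ?_, ?_⟩
  · rw [injective_iff_map_eq_zero]
    intro r hr
    obtain ⟨r, rfl⟩ := Ideal.Quotient.mk_surjective r
    exact Ideal.Quotient.eq_zero_iff_mem.2 (mem_col.2 (Ideal.Quotient.eq_zero_iff_mem.1 hr))
  · intro r
    obtain ⟨r, rfl⟩ := Ideal.Quotient.mk_surjective r
    exact ⟨Ideal.Quotient.mk _ r, rfl⟩
  · intro r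
    obtain ⟨r, rfl⟩ := Ideal.Quotient.mk_surjective r
    constructor
    · intro hr
      obtain ⟨a, ha, _, hb, rfl⟩ := Submodule.mem_sup.1 (Ideal.Quotient.eq_zero_iff_mem.1 hr)
      obtain ⟨s, rfl⟩ := Ideal.mem_span_singleton'.1 hb
      refine ⟨Ideal.Quotient.mk _ s, ?_⟩
      change Ideal.Quotient.mk I (s * y) = Ideal.Quotient.mk I (a + s * y)
      rw [map_add, Ideal.Quotient.eq_zero_iff_mem.2 ha, zero_add]
    · rintro ⟨s, hs⟩
      obtain ⟨s, rfl⟩ := Ideal.Quotient.mk_surjective s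
      rw [← hs]
      exact Ideal.Quotient.eq_zero_iff_mem.2
        (Ideal.mem_sup_right (Ideal.mem_span_singleton'.2 ⟨s, rfl⟩))

theorem len_add (I : Ideal R) (y : R) [Module.Finite K (R ⧸ I)] :
    finrank K (R ⧸ (I ⊔ Ideal.span {y})) + finrank K (R ⧸ I.colon {y}) = finrank K (R ⧸ I) := by
  obtain ⟨μ, π, h1, h2, h3⟩ := len_exact K I y
  rw [← π.finrank_range_add_finrank_ker, LinearMap.range_eq_top.2 h2, finrank_top,
    h3.linearMap_ker_eq, LinearMap.finrank_range_of_inj h1]

theorem len_fin (I : Ideal R) (y : R) [Module.Finite K (R ⧸ (I ⊔ Ideal.span {y}))]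
    [Module.Finite K (R ⧸ I.colon {y})] : Module.Finite K (R ⧸ I) := by
  obtain ⟨μ, π, -, h2, h3⟩ := len_exact K I y
  exact Module.Finite.of_exact h3 h2

theorem len_le {I J : Ideal R} (h : I ≤ J) [Module.Finite K (R ⧸ I)] :
    Module.Finite K (R ⧸ J) ∧ finrank K (R ⧸ J) ≤ finrank K (R ⧸ I) := by
  have hs : Function.Surjective (Ideal.Quotient.factorₐ K h).toLinearMap :=
    Ideal.Quotient.factor_surjective h
  exact ⟨Module.Finite.of_surjective _ hs, LinearMap.finrank_le_finrank_of_surjective hs⟩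

theorem len_pow (I : Ideal R) (y : R) [Module.Finite K (R ⧸ (I ⊔ Ideal.span {y}))] (k : ℕ) :
    Module.Finite K (R ⧸ (I ⊔ Ideal.span {y ^ k})) ∧
      finrank K (R ⧸ (I ⊔ Ideal.span {y ^ k})) ≤ k * finrank K (R ⧸ (I ⊔ Ideal.span {y})) := by
  induction k with
  | zero =>
    have : Subsingleton (R ⧸ (I ⊔ Ideal.span {y ^ 0})) := by
      rw [Ideal.Quotient.subsingleton_iff]; simp
    exact ⟨inferInstance, by rw [Module.finrank_zero_of_subsingleton]; omega⟩
  | succ k ih =>
    obtain ⟨h1, h2⟩ := ih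
    have e1 : I ⊔ Ideal.span {y} ≤ (I ⊔ Ideal.span {y ^ (k + 1)}) ⊔ Ideal.span {y} :=
      sup_le_sup_right le_sup_left _
    have e2 : I ⊔ Ideal.span {y ^ k} ≤ (I ⊔ Ideal.span {y ^ (k + 1)}).colon {y} := by
      refine sup_le (fun r hr => mem_col.2 (Ideal.mem_sup_left (I.mul_mem_right _ hr))) ?_
      rw [Ideal.span_singleton_le_iff_mem, mem_col, ← pow_succ]
      exact Ideal.mem_sup_right (Ideal.mem_span_singleton_self _)
    obtain ⟨f1, g1⟩ := len_le K e1
    obtain ⟨f2, g2⟩ := len_le K e2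
    have := len_fin K (I ⊔ Ideal.span {y ^ (k + 1)}) y
    refine ⟨this, ?_⟩
    rw [← len_add K _ y, add_mul, one_mul]
    omega

theorem len_pows {ι : Type} (y : ι → R) (k : ℕ) (s : Finset ι) (I : Ideal R)
    (hf : Module.Finite K (R ⧸ (I ⊔ Ideal.span (y '' s)))) :
    Module.Finite K (R ⧸ (I ⊔ Ideal.span ((fun i => y i ^ k) '' s))) ∧
      finrank K (R ⧸ (I ⊔ Ideal.span ((fun i => y i ^ k) '' s))) ≤
        k ^ s.card * finrank K (R ⧸ (I ⊔ Ideal.span (y '' s))) := by
  classical
  induction s using Finset.induction_on generalizing I with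
  | empty =>
    rw [Finset.coe_empty, Set.image_empty] at hf
    rw [Finset.coe_empty, Set.image_empty, Set.image_empty]
    exact ⟨hf, by simp⟩
  | insert j s hj ih =>
    have e1 : I ⊔ Ideal.span (y '' (insert j s : Finset ι)) =
        (I ⊔ Ideal.span {y j}) ⊔ Ideal.span (y '' s) := by
      rw [Finset.coe_insert, Set.image_insert_eq, Ideal.span_insert, sup_assoc]
    have e2 : I ⊔ Ideal.span ((fun i => y i ^ k) '' (insert j s : Finset ι)) =
        (I ⊔ Ideal.span ((fun i => y i ^ k) '' s)) ⊔ Ideal.span {y j ^ k} := by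
      rw [Finset.coe_insert, Set.image_insert_eq, Ideal.span_insert, sup_comm (Ideal.span {_}),
        sup_assoc]
    rw [e1] at hf ⊢
    obtain ⟨h1, h2⟩ := ih (I ⊔ Ideal.span {y j}) hf
    rw [sup_right_comm] at h1 h2
    obtain ⟨h3, h4⟩ := len_pow K (I ⊔ Ideal.span ((fun i => y i ^ k) '' s)) (y j) k
    rw [e2, Finset.card_insert_of_notMem hj, pow_succ', mul_assoc]
    exact ⟨h3, h4.trans (Nat.mul_le_mul_left _ h2)⟩

end Len

variable {σ K : Type} [Field K]

open Classical in
/-- extraction of the monomials in one residue class modulo `q` -/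
noncomputable def extr (q : ℕ) (α : σ → ℕ) : MvPolynomial σ K →ₗ[K] MvPolynomial σ K :=
  (basisMonomials σ K).constr K fun β =>
    if ∀ i, β i % q = α i then monomial (β.mapRange (· / q) (Nat.zero_div q)) 1 else 0

open Classical in
theorem extr_monomial (q : ℕ) (α : σ → ℕ) (β : σ →₀ ℕ) (c : K) :
    extr q α (monomial β c) =
      if ∀ i, β i % q = α i then monomial (β.mapRange (· / q) (Nat.zero_div q)) c else 0 := by
  have : (monomial β c : MvPolynomial σ K) = c • basisMonomials σ K β := by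
    simp [smul_monomial]
  rw [this, map_smul, extr, Basis.constr_basis]
  split_ifs <;> simp [smul_monomial]

theorem extr_mul {q : ℕ} (hq : 0 < q) (α : σ → ℕ) (y z : MvPolynomial σ K) :
    extr q α (expand q y * z) = y * extr q α z := by
  induction y using MvPolynomial.induction_on' with
  | add a b ha hb => rw [map_add, add_mul, map_add, ha, hb, add_mul]
  | monomial γ c =>
    induction z using MvPolynomial.induction_on' with
    | add a b ha hb => rw [mul_add, map_add, ha, hb, map_add, mul_add]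
    | monomial β c' =>
      rw [expand_monomial, monomial_mul, extr_monomial, extr_monomial]
      have hiff : (∀ i, (q • γ + β) i % q = α i) ↔ ∀ i, β i % q = α i := by
        simp
      by_cases h : ∀ i, β i % q = α i
      · rw [if_pos h, if_pos (hiff.2 h), monomial_mul]
        congr 2
        ext i
        simp [Nat.mul_add_div hq]
      · rw [if_neg h, if_neg (mt hiff.1 h), mul_zero]

theorem len_expand [Fintype σ] {q : ℕ} (hq : 0 < q) (Y : Set (MvPolynomial σ K))
    [Module.Finite K (MvPolynomial σ K ⧸ Ideal.span (expand q '' Y))]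
    [Module.Finite K (MvPolynomial σ K ⧸ Ideal.span Y)] :
    q ^ Fintype.card σ * finrank K (MvPolynomial σ K ⧸ Ideal.span Y) ≤
      finrank K (MvPolynomial σ K ⧸ Ideal.span (expand q '' Y)) := by
  classical
  let Φ : MvPolynomial σ K →ₗ[K] (σ → Fin q) → MvPolynomial σ K ⧸ Ideal.span Y :=
    LinearMap.pi fun α => (Ideal.Quotient.mkₐ K _).toLinearMap.comp (extr q fun i => α i)
  have hker : ∀ z ∈ Ideal.span (expand q '' Y), ∀ r, Φ (z * r) = 0 := by
    intro z hz
    induction hz using Submodule.span_induction with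
    | mem y hy =>
      obtain ⟨y, hy, rfl⟩ := hy
      intro r
      ext α
      change Ideal.Quotient.mk _ (extr q _ _) = 0
      rw [extr_mul hq, Ideal.Quotient.eq_zero_iff_mem]
      exact Ideal.mul_mem_right _ _ (Ideal.subset_span hy)
    | zero => intro r; simp
    | add a b _ _ ha hb => intro r; rw [add_mul, map_add, ha, hb, add_zero]
    | smul a b _ hb => intro r; rw [smul_eq_mul, mul_comm a, mul_assoc]; exact hb _
  have hsurj : Function.Surjective Φ := by
    intro b
    choose b' hb' using fun α => Ideal.Quotient.mk_surjective (b α)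
    refine ⟨∑ α, expand q (b' α) * monomial (Finsupp.equivFunOnFinite.symm fun i => (α i : ℕ)) 1,
      ?_⟩
    ext α
    change Ideal.Quotient.mk _ (extr q _ _) = _
    rw [map_sum, Finset.sum_eq_single α, extr_mul hq, extr_monomial, if_pos, ← hb']
    · congr 1
      have : Finsupp.mapRange (· / q) (Nat.zero_div q)
          (Finsupp.equivFunOnFinite.symm fun i => (α i : ℕ)) = 0 := by
        ext i
        simp [Nat.div_eq_of_lt (α i).2]
      rw [this]; simp
    · intro i
      simp [Nat.mod_eq_of_lt (α i).2]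
    · intro β _ hβ
      rw [extr_mul hq, extr_monomial, if_neg, mul_zero]
      intro h
      apply hβ
      ext i
      simpa [Nat.mod_eq_of_lt (β i).2] using h i
    · simp
  let Φ' : (MvPolynomial σ K ⧸ Ideal.span (expand q '' Y)) →ₗ[K]
      (σ → Fin q) → MvPolynomial σ K ⧸ Ideal.span Y :=
    (((Ideal.span (expand q '' Y)).restrictScalars K).liftQ Φ fun z hz => by
      simpa using hker z hz 1).comp (Submodule.Quotient.restrictScalarsEquiv K _).symm.toLinearMap
  have hs' : Function.Surjective Φ' := by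
    intro b
    obtain ⟨z, rfl⟩ := hsurj b
    exact ⟨Ideal.Quotient.mk _ z, rfl⟩
  have := LinearMap.finrank_le_finrank_of_surjective hs'
  rwa [Module.finrank_pi_fintype, Finset.sum_const, Finset.card_univ, Fintype.card_fun,
    Fintype.card_fin, smul_eq_mul] at this

theorem len_map [Fintype σ] {K' : Type} [Field K'] (ψ : K →+* K') (Y : Set (MvPolynomial σ K))
    (hY : ∀ y ∈ Y, ∃ e, y.IsHomogeneous e) {N : ℕ} (hN : H (Ideal.span Y) N = 0) :
    Module.Finite K (MvPolynomial σ K ⧸ Ideal.span Y) ∧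
    Module.Finite K' (MvPolynomial σ K' ⧸ Ideal.span (map ψ '' Y)) ∧
      finrank K' (MvPolynomial σ K' ⧸ Ideal.span (map ψ '' Y)) =
        finrank K (MvPolynomial σ K ⧸ Ideal.span Y) := by
  have h1 := finrank_quot (hom_span Y hY) (N := N) fun m hm => H_zero_of_le hN hm
  have h2 := finrank_quot (hom_span (map ψ '' Y) (by
    rintro _ ⟨y, hy, rfl⟩
    obtain ⟨e, he⟩ := hY y hy
    exact ⟨e, he.map ψ⟩)) (N := N) fun m hm => by rw [H_map ψ Y hY, H_zero_of_le hN hm]
  refine ⟨h1.1, h2.1, ?_⟩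
  have := h2.2
  simp only [H_map ψ Y hY] at this
  exact_mod_cast this.trans h1.2.symm

theorem len_frob [Fintype σ] (p : ℕ) [hp : Fact p.Prime] [CharP K p] (e : ℕ)
    (Y : Set (MvPolynomial σ K)) (hY : ∀ y ∈ Y, ∃ e, y.IsHomogeneous e) {N : ℕ}
    (hN : H (Ideal.span Y) N = 0)
    (hf : Module.Finite K (MvPolynomial σ K ⧸ Ideal.span ((fun y => y ^ p ^ e) '' Y))) :
    (p ^ e) ^ Fintype.card σ * finrank K (MvPolynomial σ K ⧸ Ideal.span Y) ≤
      finrank K (MvPolynomial σ K ⧸ Ideal.span ((fun y => y ^ p ^ e) '' Y)) := by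
  have h1 : (fun y => y ^ p ^ e) '' Y = expand (p ^ e) '' (map (iterateFrobenius K p e) '' Y) := by
    rw [Set.image_image]
    congr 1
    ext1 y
    rw [← map_expand, map_iterateFrobenius_expand]
  obtain ⟨-, h2, h3⟩ := len_map (iterateFrobenius K p e) Y hY hN
  rw [h1] at hf ⊢
  rw [← h3]
  exact len_expand (pow_pos hp.out.pos e) _

end Pool.Agent.MP_4cdbcc_ag
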