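import Mathlib

/-! Hilbert functions of homogeneous ideals of polynomial rings. -/

namespace Pool.Agent.MP_4cdbcc_ag

open MvPolynomial Module

variable {σ : Type} {K : Type} [Field K]

theorem hc_mul {R : Type} [CommRing R] {y : MvPolynomial σ R} {e : ℕ} (hy : y.IsHomogeneous e)
    (r : MvPolynomial σ R) (n : ℕ) :
    homogeneousComponent n (r * y) =
      if e ≤ n then homogeneousComponent (n - e) r * y else 0 := by
  induction r using MvPolynomial.induction_on' with
  | monomial d c =>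
    have h1 : (monomial d c : MvPolynomial σ R).IsHomogeneous d.degree :=
      isHomogeneous_monomial c rfl
    rw [homogeneousComponent_of_mem (h1.mul hy), homogeneousComponent_of_mem h1]
    by_cases h : e ≤ n
    · rw [if_pos h]
      by_cases h2 : n = d.degree + e
      · rw [if_pos h2, if_pos (by omega)]
      · rw [if_neg h2, if_neg (by omega), zero_mul]
    · rw [if_neg h, if_neg (by omega)]
  | add p q hp hq =>
    rw [add_mul, map_add, hp, hq, map_add]
    split_ifs
    · rw [add_mul]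
    · rw [add_zero]

/-- homogeneous ideals -/
def Hom {R : Type} [CommRing R] (I : Ideal (MvPolynomial σ R)) : Prop :=
  ∀ m, ∀ y ∈ I, homogeneousComponent m y ∈ I

theorem hom_span {R : Type} [CommRing R] (Y : Set (MvPolynomial σ R))
    (hY : ∀ y ∈ Y, ∃ e, y.IsHomogeneous e) : Hom (Ideal.span Y) := by
  have key : ∀ z ∈ Ideal.span Y, ∀ r m, homogeneousComponent m (r * z) ∈ Ideal.span Y := by
    intro z hz
    induction hz using Submodule.span_induction with
    | mem y hy =>
      intro r m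
      obtain ⟨e, he⟩ := hY y hy
      rw [hc_mul he]
      split_ifs
      · exact Ideal.mul_mem_left _ _ (Ideal.subset_span hy)
      · exact zero_mem _
    | zero => intro r m; simp
    | add a b _ _ ha hb => intro r m; rw [mul_add, map_add]; exact add_mem (ha r m) (hb r m)
    | smul a b _ hb => intro r m; rw [smul_eq_mul, ← mul_assoc]; exact hb _ m
  intro m y hy
  simpa using key y hy 1 m

theorem hom_bot {R : Type} [CommRing R] : Hom (⊥ : Ideal (MvPolynomial σ R)) := by
  intro m y hy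
  rw [Ideal.mem_bot] at hy
  simp [hy]

theorem hom_top {R : Type} [CommRing R] : Hom (⊤ : Ideal (MvPolynomial σ R)) :=
  fun _ _ _ => Submodule.mem_top

theorem Hom.sup {R : Type} [CommRing R] {I J : Ideal (MvPolynomial σ R)} (hI : Hom I)
    (hJ : Hom J) : Hom (I ⊔ J) := by
  intro m y hy
  obtain ⟨a, ha, b, hb, rfl⟩ := Submodule.mem_sup.1 hy
  rw [map_add]
  exact add_mem (Ideal.mem_sup_left (hI m a ha)) (Ideal.mem_sup_right (hJ m b hb))

theorem Hom.sup_one {R : Type} [CommRing R] {I : Ideal (MvPolynomial σ R)} (hI : Hom I)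
    {y : MvPolynomial σ R} {e : ℕ} (hy : y.IsHomogeneous e) : Hom (I ⊔ Ideal.span {y}) :=
  hI.sup (hom_span _ (by rintro _ rfl; exact ⟨e, hy⟩))

theorem mem_col {R : Type} [CommRing R] {I : Ideal R} {y r : R} :
    r ∈ I.colon {y} ↔ r * y ∈ I := by
  rw [Submodule.mem_colon_singleton, smul_eq_mul]

theorem Hom.col {R : Type} [CommRing R] {I : Ideal (MvPolynomial σ R)} (hI : Hom I)
    {y : MvPolynomial σ R} {e : ℕ} (hy : y.IsHomogeneous e) : Hom (I.colon {y}) := by
  intro m r hr
  rw [mem_col] at hr ⊢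
  have := hI (m + e) _ hr
  rwa [hc_mul hy, if_pos (by omega), Nat.add_sub_cancel] at this

/-- an ideal is generated by its homogeneous elements -/
theorem Hom.mem_of {R : Type} [CommRing R] {J : Ideal (MvPolynomial σ R)} {y : MvPolynomial σ R}
    (h : ∀ m, homogeneousComponent m y ∈ J) : y ∈ J := by
  rw [← sum_homogeneousComponent y]
  exact Ideal.sum_mem _ fun m _ => h m

/-- the degree `m` part of an ideal -/
noncomputable def pc (I : Ideal (MvPolynomial σ K)) (m : ℕ) : Submodule K (MvPolynomial σ K) :=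
  homogeneousSubmodule σ K m ⊓ I.restrictScalars K

theorem mem_pc {I : Ideal (MvPolynomial σ K)} {m : ℕ} {y : MvPolynomial σ K} :
    y ∈ pc I m ↔ y.IsHomogeneous m ∧ y ∈ I := Iff.rfl

instance fd_hom [Finite σ] (m : ℕ) : Module.Finite K (homogeneousSubmodule σ K m) :=
  Module.Finite.iff_fg.2 (homogeneousSubmodule_fg σ K m)

instance fd_pc [Finite σ] (I : Ideal (MvPolynomial σ K)) (m : ℕ) : Module.Finite K (pc I m) :=
  Submodule.finiteDimensional_of_le (inf_le_left : pc I m ≤ homogeneousSubmodule σ K m)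

/-- dimension of the degree `m` part of an ideal -/
noncomputable def dI (I : Ideal (MvPolynomial σ K)) (m : ℕ) : ℕ := finrank K (pc I m)

/-- the Hilbert function of the quotient by `I` -/
noncomputable def H (I : Ideal (MvPolynomial σ K)) (m : ℕ) : ℤ :=
  (dI (⊤ : Ideal (MvPolynomial σ K)) m : ℤ) - dI I m

theorem pc_mono {I J : Ideal (MvPolynomial σ K)} (h : I ≤ J) (m : ℕ) : pc I m ≤ pc J m :=
  fun _ hy => ⟨hy.1, h hy.2⟩

theorem dI_mono [Finite σ] {I J : Ideal (MvPolynomial σ K)} (h : I ≤ J) (m : ℕ) :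
    dI I m ≤ dI J m := Submodule.finrank_mono (pc_mono h m)

theorem H_anti [Finite σ] {I J : Ideal (MvPolynomial σ K)} (h : I ≤ J) (m : ℕ) :
    H J m ≤ H I m := by
  have := dI_mono h m
  unfold H; omega

theorem H_nonneg [Finite σ] (I : Ideal (MvPolynomial σ K)) (m : ℕ) : 0 ≤ H I m := by
  have := dI_mono (le_top : I ≤ ⊤) m
  unfold H; omega

theorem mem_of_H_le [Finite σ] {I J : Ideal (MvPolynomial σ K)} (h : I ≤ J) {m : ℕ}
    (hm : H I m ≤ H J m) {y : MvPolynomial σ K} (hy : y.IsHomogeneous m) (hJ : y ∈ J) :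
    y ∈ I := by
  have h1 : pc I m = pc J m :=
    Submodule.eq_of_le_of_finrank_le (pc_mono h m) (by unfold H dI at hm; omega)
  have h2 : y ∈ pc J m := ⟨hy, hJ⟩
  rw [← h1] at h2
  exact h2.2

theorem H_congr {I J : Ideal (MvPolynomial σ K)} {m : ℕ}
    (h : ∀ y : MvPolynomial σ K, y.IsHomogeneous m → (y ∈ I ↔ y ∈ J)) : H I m = H J m := by
  have : pc I m = pc J m := by
    ext y
    exact ⟨fun hy => ⟨hy.1, (h y hy.1).1 hy.2⟩, fun hy => ⟨hy.1, (h y hy.1).2 hy.2⟩⟩
  unfold H dI; rw [this]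

theorem H_top (m : ℕ) : H (⊤ : Ideal (MvPolynomial σ K)) m = 0 := sub_self _

theorem H_eq_zero_iff [Finite σ] {I : Ideal (MvPolynomial σ K)} {m : ℕ} :
    H I m = 0 ↔ ∀ y : MvPolynomial σ K, y.IsHomogeneous m → y ∈ I := by
  constructor
  · intro h y hy
    exact mem_of_H_le le_top (by rw [h, H_top]) hy Submodule.mem_top
  · intro h
    rw [← H_top (σ := σ) (K := K) m]
    exact H_congr fun y hy => ⟨fun _ => Submodule.mem_top, fun _ => h y hy⟩

theorem H_sup_lt {I : Ideal (MvPolynomial σ K)} (hI : Hom I) {y : MvPolynomial σ K} {e : ℕ}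
    (hy : y.IsHomogeneous e) {m : ℕ} (hm : m < e) : H (I ⊔ Ideal.span {y}) m = H I m := by
  refine H_congr fun z hz => ⟨fun h => ?_, fun h => Ideal.mem_sup_left h⟩
  obtain ⟨a, ha, b, hb, rfl⟩ := Submodule.mem_sup.1 h
  obtain ⟨r, rfl⟩ := Ideal.mem_span_singleton'.1 hb
  rw [← homogeneousComponent_eq_self hz, map_add, hc_mul hy, if_neg (by omega), add_zero]
  exact hI m a ha

theorem H_sup_add [Finite σ] {I : Ideal (MvPolynomial σ K)} (hI : Hom I) {y : MvPolynomial σ K}
    {e : ℕ} (hy : y.IsHomogeneous e) (m : ℕ) :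
    H (I ⊔ Ideal.span {y}) (m + e) + H (I.colon {y}) m = H I (m + e) := by
  by_cases h0 : y = 0
  · subst h0
    have h1 : I.colon {0} = ⊤ := by
      rw [eq_top_iff]; intro r _; rw [mem_col, mul_zero]; exact zero_mem _
    rw [h1, H_top, add_zero]; congr 1; simp
  have hinj : Function.Injective (LinearMap.mulRight K y) := fun a b hab =>
    mul_right_cancel₀ h0 hab
  set W := (pc (⊤ : Ideal (MvPolynomial σ K)) m).map (LinearMap.mulRight K y) with hW
  have e1 : pc (I ⊔ Ideal.span {y}) (m + e) = pc I (m + e) ⊔ W := by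
    apply le_antisymm
    · rintro z ⟨hz, h⟩
      obtain ⟨a, ha, b, hb, rfl⟩ := Submodule.mem_sup.1 h
      obtain ⟨r, rfl⟩ := Ideal.mem_span_singleton'.1 hb
      rw [← homogeneousComponent_eq_self hz, map_add, hc_mul hy, if_pos (by omega),
        Nat.add_sub_cancel]
      refine add_mem (Submodule.mem_sup_left ⟨homogeneousComponent_isHomogeneous _ _, hI _ a ha⟩)
        (Submodule.mem_sup_right ⟨_, ⟨homogeneousComponent_isHomogeneous _ _, Submodule.mem_top⟩,
          rfl⟩)
    · refine sup_le (pc_mono le_sup_left _) ?_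
      rintro _ ⟨r, hr, rfl⟩
      exact ⟨hr.1.mul hy, Ideal.mem_sup_right (Ideal.mem_span_singleton'.2 ⟨r, rfl⟩)⟩
  have e2 : pc I (m + e) ⊓ W = (pc (I.colon {y}) m).map (LinearMap.mulRight K y) := by
    apply le_antisymm
    · rintro _ ⟨h, r, hr, rfl⟩
      exact ⟨r, ⟨hr.1, mem_col.2 h.2⟩, rfl⟩
    · rintro _ ⟨r, hr, rfl⟩
      exact ⟨⟨hr.1.mul hy, mem_col.1 hr.2⟩, r, ⟨hr.1, Submodule.mem_top⟩, rfl⟩
  have e3 := Submodule.finrank_sup_add_finrank_inf_eq (pc I (m + e)) W
  rw [← e1, e2, hW, ← (Submodule.equivMapOfInjective _ hinj _).finrank_eq,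
    ← (Submodule.equivMapOfInjective _ hinj _).finrank_eq] at e3
  unfold H dI
  omega

/-- Hilbert series -/
noncomputable def HS (I : Ideal (MvPolynomial σ K)) : PowerSeries ℤ := PowerSeries.mk (H I)

theorem HS_sup [Finite σ] {I : Ideal (MvPolynomial σ K)} (hI : Hom I) {y : MvPolynomial σ K}
    {e : ℕ} (hy : y.IsHomogeneous e) :
    HS (I ⊔ Ideal.span {y}) = HS I - PowerSeries.X ^ e * HS (I.colon {y}) := by
  ext m
  rw [map_sub, PowerSeries.coeff_X_pow_mul']
  simp only [HS, PowerSeries.coeff_mk]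
  split_ifs with h
  · obtain ⟨k, rfl⟩ : ∃ k, m = k + e := ⟨m - e, by omega⟩
    rw [Nat.add_sub_cancel]
    have := H_sup_add hI hy k
    omega
  · rw [H_sup_lt hI hy (by omega), sub_zero]

/-- `y` is a non zero divisor modulo `I` -/
def NZ {R : Type} [CommRing R] (I : Ideal R) (y : R) : Prop := ∀ r, r * y ∈ I → r ∈ I

theorem NZ.col {R : Type} [CommRing R] {I : Ideal R} {y : R} (h : NZ I y) : I.colon {y} = I := by
  ext r
  rw [mem_col]
  exact ⟨h r, fun hr => I.mul_mem_right _ hr⟩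

theorem NZ.mul {R : Type} [CommRing R] {I : Ideal R} {y z : R} (hy : NZ I y) (hz : NZ I z) :
    NZ I (y * z) := fun r hr => hy r (hz _ (by rwa [mul_assoc]))

theorem NZ.pow {R : Type} [CommRing R] {I : Ideal R} {y : R} (hy : NZ I y) (k : ℕ) :
    NZ I (y ^ k) := by
  induction k with
  | zero => intro r hr; simpa using hr
  | succ k ih => rw [pow_succ]; exact ih.mul hy

theorem NZ.of_mul_left {R : Type} [CommRing R] {I : Ideal R} {y z : R} (h : NZ I (y * z)) :
    NZ I y := fun r hr => h r (by rw [← mul_assoc]; exact I.mul_mem_right _ hr)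

/-- if `y * y'` and then `z` are regular, so are `y` and then `z` -/
theorem NZ.of_factor {R : Type} [CommRing R] {I : Ideal R} {y y' z : R} (h : NZ I (y * y'))
    (hz : NZ (I ⊔ Ideal.span {y * y'}) z) : NZ (I ⊔ Ideal.span {y}) z := by
  intro r hr
  obtain ⟨a, ha, b, hb, e⟩ := Submodule.mem_sup.1 hr
  obtain ⟨s, rfl⟩ := Ideal.mem_span_singleton'.1 hb
  have h1 : r * y' ∈ I ⊔ Ideal.span {y * y'} := by
    apply hz
    have : r * y' * z = a * y' + s * (y * y') := by rw [mul_right_comm, ← e]; ring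
    rw [this]
    exact add_mem (Ideal.mem_sup_left (I.mul_mem_right _ ha))
      (Ideal.mem_sup_right (Ideal.mem_span_singleton'.2 ⟨s, rfl⟩))
  obtain ⟨a', ha', b, hb, e'⟩ := Submodule.mem_sup.1 h1
  obtain ⟨s', rfl⟩ := Ideal.mem_span_singleton'.1 hb
  have h2 : r - s' * y ∈ I := by
    have h3 : NZ I y' := NZ.of_mul_left (z := y) (by rwa [mul_comm])
    apply h3
    have : (r - s' * y) * y' = a' := by rw [sub_mul, ← e']; ring
    rwa [this]
  have : r = (r - s' * y) + s' * y := by ring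
  rw [this]
  exact add_mem (Ideal.mem_sup_left h2)
    (Ideal.mem_sup_right (Ideal.mem_span_singleton'.2 ⟨s', rfl⟩))

theorem NZ.sup_mul {R : Type} [CommRing R] {I : Ideal R} {y y' z : R} (h : NZ I y)
    (hz : NZ (I ⊔ Ideal.span {y}) z) (hz' : NZ (I ⊔ Ideal.span {y'}) z) :
    NZ (I ⊔ Ideal.span {y * y'}) z := by
  intro r hr
  obtain ⟨a, ha, b, hb, e⟩ := Submodule.mem_sup.1 hr
  obtain ⟨s, rfl⟩ := Ideal.mem_span_singleton'.1 hb
  have h1 : r ∈ I ⊔ Ideal.span {y} := by
    apply hz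
    rw [← e]
    exact add_mem (Ideal.mem_sup_left ha)
      (Ideal.mem_sup_right (Ideal.mem_span_singleton'.2 ⟨s * y', by ring⟩))
  obtain ⟨a', ha', b, hb, rfl⟩ := Submodule.mem_sup.1 h1
  obtain ⟨s', rfl⟩ := Ideal.mem_span_singleton'.1 hb
  have h2 : s' ∈ I ⊔ Ideal.span {y'} := by
    apply hz'
    have h3 : s' * z - s * y' ∈ I := by
      apply h
      have : (s' * z - s * y') * y = a - a' * z := by linear_combination -e
      rw [this]
      exact sub_mem ha (I.mul_mem_right _ ha')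
    have : s' * z = (s' * z - s * y') + s * y' := by ring
    rw [this]
    exact add_mem (Ideal.mem_sup_left h3)
      (Ideal.mem_sup_right (Ideal.mem_span_singleton'.2 ⟨s, rfl⟩))
  obtain ⟨a'', ha'', b, hb2, rfl⟩ := Submodule.mem_sup.1 h2
  obtain ⟨t, rfl⟩ := Ideal.mem_span_singleton'.1 hb2
  have : a' + (a'' + t * y') * y = (a' + a'' * y) + t * (y * y') := by ring
  rw [this]
  exact add_mem (Ideal.mem_sup_left (add_mem ha' (I.mul_mem_right _ ha'')))
    (Ideal.mem_sup_right (Ideal.mem_span_singleton'.2 ⟨t, rfl⟩))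

theorem NZ.sup_pow {R : Type} [CommRing R] {I : Ideal R} {y z : R} (h : NZ I y)
    (hz : NZ (I ⊔ Ideal.span {y}) z) (k : ℕ) : NZ (I ⊔ Ideal.span {y ^ k}) z := by
  induction k with
  | zero => intro r _; simp
  | succ k ih => rw [pow_succ']; exact h.sup_mul hz ih

theorem HS_sup_nz [Finite σ] {I : Ideal (MvPolynomial σ K)} (hI : Hom I) {y : MvPolynomial σ K}
    {e : ℕ} (hy : y.IsHomogeneous e) (h : NZ I y) :
    HS (I ⊔ Ideal.span {y}) = (1 - PowerSeries.X ^ e) * HS I := by
  rw [HS_sup hI hy, h.col]; ring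

/-- the lowest nonzero coefficient is positive -/
def Pos (D : PowerSeries ℤ) : Prop :=
  ∃ m, 0 < PowerSeries.coeff m D ∧ ∀ j < m, PowerSeries.coeff j D = 0

theorem pos_of_nonneg {E : PowerSeries ℤ} (h : ∀ m, 0 ≤ PowerSeries.coeff m E) (h0 : E ≠ 0) :
    Pos E := by
  classical
  have hex : ∃ m, PowerSeries.coeff m E ≠ 0 := by
    by_contra hc
    push Not at hc
    exact h0 (PowerSeries.ext fun m => by simpa using hc m)
  refine ⟨Nat.find hex, lt_of_le_of_ne (h _) (Nat.find_spec hex).symm, fun j hj => ?_⟩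
  simpa using Nat.find_min hex hj

theorem Pos.step {D E : PowerSeries ℤ} (hD : Pos D) (h : ∀ m, 0 ≤ PowerSeries.coeff m E) {e : ℕ}
    (he : 1 ≤ e) : Pos ((1 - PowerSeries.X ^ e) * D + E) := by
  classical
  obtain ⟨m, hm, hlt⟩ := hD
  have c1 : ∀ j ≤ m, PowerSeries.coeff j ((1 - PowerSeries.X ^ e) * D + E) =
      PowerSeries.coeff j D + PowerSeries.coeff j E := by
    intro j hj
    rw [sub_mul, one_mul, map_add, map_sub, PowerSeries.coeff_X_pow_mul']
    split_ifs with h1
    · rw [hlt (j - e) (by omega), sub_zero]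
    · rw [sub_zero]
  have hex : ∃ j, PowerSeries.coeff j ((1 - PowerSeries.X ^ e) * D + E) ≠ 0 :=
    ⟨m, by rw [c1 m le_rfl]; have := h m; omega⟩
  have hle : Nat.find hex ≤ m := Nat.find_min' hex (by rw [c1 m le_rfl]; have := h m; omega)
  refine ⟨Nat.find hex, lt_of_le_of_ne ?_ (Nat.find_spec hex).symm, fun j hj => ?_⟩
  · rw [c1 _ hle]
    have := h (Nat.find hex)
    rcases hle.lt_or_eq with h2 | h2
    · rw [hlt _ h2]; omega
    · rw [h2] at this ⊢; omega
  · simpa using Nat.find_min hex hj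

/-- one step of the comparison with the series of a complete intersection -/
theorem step [Finite σ] {I : Ideal (MvPolynomial σ K)} (hI : Hom I) {y : MvPolynomial σ K}
    {e : ℕ} (hy : y.IsHomogeneous e) (he : 1 ≤ e) {T : PowerSeries ℤ}
    (h : HS I - T = 0 ∨ Pos (HS I - T)) :
    (HS I - T = 0 ∧ NZ I y ∧ HS (I ⊔ Ideal.span {y}) - (1 - PowerSeries.X ^ e) * T = 0) ∨
      Pos (HS (I ⊔ Ideal.span {y}) - (1 - PowerSeries.X ^ e) * T) := by
  set E := PowerSeries.X ^ e * (HS I - HS (I.colon {y})) with hE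
  have e1 : HS (I ⊔ Ideal.span {y}) - (1 - PowerSeries.X ^ e) * T =
      (1 - PowerSeries.X ^ e) * (HS I - T) + E := by
    rw [HS_sup hI hy, hE]; ring
  have hle : I ≤ I.colon {y} := fun r hr => mem_col.2 (I.mul_mem_right _ hr)
  have hE0 : ∀ m, 0 ≤ PowerSeries.coeff m E := by
    intro m
    rw [hE, PowerSeries.coeff_X_pow_mul']
    split_ifs
    · simp only [HS, map_sub, PowerSeries.coeff_mk]
      have := H_anti hle (m - e)
      omega
    · exact le_rfl
  rcases h with h | h
  · by_cases h0 : E = 0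
    · refine Or.inl ⟨h, ?_, by rw [e1, h, h0]; simp⟩
      intro r hr
      refine Hom.mem_of fun m => mem_of_H_le hle (m := m) ?_
        (homogeneousComponent_isHomogeneous _ _) (hI.col hy m r (mem_col.2 hr))
      have := congrArg (PowerSeries.coeff (m + e)) h0
      rw [hE, PowerSeries.coeff_X_pow_mul] at this
      simp only [HS, map_sub, PowerSeries.coeff_mk, map_zero] at this
      omega
    · right
      rw [e1, h, mul_zero, zero_add]
      exact pos_of_nonneg hE0 h0
  · right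
    rw [e1]
    exact h.step hE0 he

theorem not_pos {D : PowerSeries ℤ} (h : ∀ m, PowerSeries.coeff m D ≤ 0) : ¬ Pos D := by
  rintro ⟨m, hm, _⟩
  exact absurd (h m) (not_le.2 hm)

end Pool.Agent.MP_4cdbcc_ag
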