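import Pool.Agent.MP_4cdbcc_ag.Frob

/-! General linear forms, transfer of non-membership. -/

namespace Pool.Agent.MP_4cdbcc_ag

open MvPolynomial Module

variable {σ K : Type} [Field K]

theorem mem_of_lin [Finite σ] {I : Ideal (MvPolynomial σ K)}
    (h : ∀ l : MvPolynomial σ K, l.IsHomogeneous 1 → l ∈ I) {y : MvPolynomial σ K} {e : ℕ}
    (hy : y.IsHomogeneous e) (he : 1 ≤ e) : y ∈ I :=
  H_eq_zero_iff.1 (H_zero_of_le (H_eq_zero_iff.2 h) he) y hy

theorem nz_iff {R : Type} [CommRing R] [IsNoetherianRing R] (J : Ideal R) (y : R) :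
    NZ J y ↔ ∀ P ∈ associatedPrimes R (R ⧸ J), y ∉ P := by
  have h := Set.ext_iff.1 (biUnion_associatedPrimes_eq_zero_divisors R (R ⧸ J)) y
  simp only [Set.mem_iUnion, SetLike.mem_coe, exists_prop, Set.mem_ofPred_eq] at h
  constructor
  · intro hn P hP hy
    obtain ⟨x, hx, e⟩ := h.1 ⟨P, hP, hy⟩
    obtain ⟨x, rfl⟩ := Ideal.Quotient.mk_surjective x
    refine hx (Ideal.Quotient.eq_zero_iff_mem.2 (hn x ?_))
    rw [mul_comm]
    exact Ideal.Quotient.eq_zero_iff_mem.1 e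
  · intro hP r hr
    by_contra hn
    obtain ⟨P, h1, h2⟩ := h.2 ⟨Ideal.Quotient.mk J r, mt Ideal.Quotient.eq_zero_iff_mem.1 hn,
      Ideal.Quotient.eq_zero_iff_mem.2 (by rwa [mul_comm] at hr)⟩
    exact hP P h1 h2

theorem exists_lin [Finite σ] [Infinite K] {J₁ J₂ : Ideal (MvPolynomial σ K)}
    {y₁ y₂ : MvPolynomial σ K} {e₁ e₂ : ℕ} (h₁ : y₁.IsHomogeneous e₁) (h₂ : y₂.IsHomogeneous e₂)
    (he₁ : 1 ≤ e₁) (he₂ : 1 ≤ e₂) (n₁ : NZ J₁ y₁) (n₂ : NZ J₂ y₂) :
    ∃ l : MvPolynomial σ K, l.IsHomogeneous 1 ∧ NZ J₁ l ∧ NZ J₂ l := by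
  let s := associatedPrimes (MvPolynomial σ K) (MvPolynomial σ K ⧸ J₁) ∪
    associatedPrimes (MvPolynomial σ K) (MvPolynomial σ K ⧸ J₂)
  have hs : s.Finite := (associatedPrimes.finite _ _).union (associatedPrimes.finite _ _)
  have := hs.to_subtype
  obtain ⟨l, hl⟩ := Submodule.exists_forall_notMem_of_forall_ne_top
    (fun P : s => (P.1.restrictScalars K).comap (homogeneousSubmodule σ K 1).subtype) (by
      rintro ⟨P, hP⟩ htop
      have h : ∀ l : MvPolynomial σ K, l.IsHomogeneous 1 → l ∈ P := fun l hl =>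
        (htop ▸ Submodule.mem_top : (⟨l, hl⟩ : homogeneousSubmodule σ K 1) ∈ _)
      rcases hP with hP | hP
      · exact (nz_iff _ _).1 n₁ P hP (mem_of_lin h h₁ he₁)
      · exact (nz_iff _ _).1 n₂ P hP (mem_of_lin h h₂ he₂))
  exact ⟨l, l.2, (nz_iff _ _).2 fun P hP => hl ⟨P, Or.inl hP⟩,
    (nz_iff _ _).2 fun P hP => hl ⟨P, Or.inr hP⟩⟩

theorem notMem_of_H [Finite σ] {I : Ideal (MvPolynomial σ K)} {w : MvPolynomial σ K} {D : ℕ}
    (hw : w.IsHomogeneous D) : w ∉ I ↔ H (I ⊔ Ideal.span {w}) D < H I D := by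
  constructor
  · intro h
    by_contra hc
    exact h (mem_of_H_le le_sup_left (not_lt.1 hc) hw
      (Ideal.mem_sup_right (Ideal.mem_span_singleton_self w)))
  · intro h hI
    rw [sup_eq_left.2 ((Ideal.span_singleton_le_iff_mem I).2 hI)] at h
    exact lt_irrefl _ h

theorem notMem_map [Fintype σ] {K' : Type} [Field K'] (ψ : K →+* K') (Y : Set (MvPolynomial σ K))
    (hY : ∀ y ∈ Y, ∃ e, y.IsHomogeneous e) {w : MvPolynomial σ K} {D : ℕ}
    (hw : w.IsHomogeneous D) (h : w ∉ Ideal.span Y) : map ψ w ∉ Ideal.span (map ψ '' Y) := by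
  rw [notMem_of_H hw, sup_comm, ← Ideal.span_insert] at h
  rw [notMem_of_H (hw.map ψ), sup_comm, ← Ideal.span_insert, ← Set.image_insert_eq, H_map ψ Y hY,
    H_map ψ _ (by
      rintro y (rfl | hy)
      exacts [⟨D, hw⟩, hY y hy])]
  exact h

theorem HS_two [Finite σ] {I : Ideal (MvPolynomial σ K)} (hI : Hom I) {y z : MvPolynomial σ K}
    {a b : ℕ} (hy : y.IsHomogeneous a) (hz : z.IsHomogeneous b) (h1 : NZ I y)
    (h2 : NZ (I ⊔ Ideal.span {y}) z) :
    HS (I ⊔ Ideal.span {y} ⊔ Ideal.span {z}) =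
      (1 - PowerSeries.X ^ b) * ((1 - PowerSeries.X ^ a) * HS I) := by
  rw [HS_sup_nz (hI.sup_one hy) hz h2, HS_sup_nz hI hy h1]

theorem swap_nz [Finite σ] {I : Ideal (MvPolynomial σ K)} (hI : Hom I) {y z : MvPolynomial σ K}
    {a b : ℕ} (hy : y.IsHomogeneous a) (hz : z.IsHomogeneous b) (ha : 1 ≤ a) (hb : 1 ≤ b)
    (h1 : NZ I y) (h2 : NZ (I ⊔ Ideal.span {y}) z) :
    NZ I z ∧ NZ (I ⊔ Ideal.span {z}) y := by
  refine (two hI (T := HS I) (Or.inl (sub_self _)) hz hy hb ha fun m => ?_).2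
  rw [sup_right_comm, mul_left_comm, ← HS_two hI hy hz h1 h2, HS, PowerSeries.coeff_mk]

/-- numerator for two more forms -/
theorem num_two {ι : Type} [Fintype ι] (d : ι → ℕ) (a b : ℕ) :
    ∃ p : Polynomial ℤ, p.eval 1 = a * b * ∏ i, (d i : ℤ) ∧
      (1 - PowerSeries.X ^ b : PowerSeries ℤ) * ((1 - PowerSeries.X ^ a) *
        ((∏ i, (1 - PowerSeries.X ^ d i)) * T0 (Fintype.card ι + 2))) = (p : PowerSeries ℤ) := by
  refine ⟨num (fun o : Option (Option ι) => o.elim b fun o' => o'.elim a d), ?_, ?_⟩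
  · rw [num_eval, Fintype.prod_option, Fintype.prod_option]
    simp only [Option.elim_none, Option.elim_some]
    ring
  · have := num_eq (fun o : Option (Option ι) => o.elim b fun o' => o'.elim a d) 0
    rw [Fintype.prod_option, Fintype.prod_option, Fintype.card_option, Fintype.card_option] at this
    simp only [Option.elim_none, Option.elim_some, T0, pow_zero, mul_one, add_zero] at this
    rw [← this, T0]
    ring

end Pool.Agent.MP_4cdbcc_ag
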