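import Pool.Agent.MP_4cdbcc_ag.CI

/-! Behaviour of Hilbert functions under change of the coefficient ring. -/

namespace Pool.Agent.MP_4cdbcc_ag

open MvPolynomial Module

variable {σ : Type}

theorem exists_minor {K : Type} [Field K] {κ : Type} [Fintype κ] [DecidableEq κ]
    (v : κ → MvPolynomial σ K) (hv : LinearIndependent K v) :
    ∃ s : κ → (σ →₀ ℕ), (Matrix.of fun i j => coeff (s i) (v j)).det ≠ 0 := by
  classical
  let row : (σ →₀ ℕ) → κ → K := fun α j => coeff α (v j)
  have htop : Submodule.span K (Set.range row) = ⊤ := by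
    by_contra hne
    obtain ⟨f, hf0, hf⟩ := Submodule.exists_le_ker_of_lt_top _ (lt_top_iff_ne_top.2 hne)
    apply hf0
    have h1 : ∑ j, f (Pi.single j 1) • v j = 0 := by
      ext α
      have h2 : f (row α) = 0 := hf (Submodule.subset_span ⟨α, rfl⟩)
      rw [LinearMap.pi_apply_eq_sum_univ] at h2
      rw [coeff_sum, coeff_zero, ← h2]
      refine Finset.sum_congr rfl fun j _ => ?_
      rw [coeff_smul, smul_eq_mul, smul_eq_mul, mul_comm]
      congr 2
      ext k
      simp [Pi.single_apply, eq_comm]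
    have h3 := Fintype.linearIndependent_iff.1 hv _ h1
    refine LinearMap.pi_ext fun j x => ?_
    have : (Pi.single j x : κ → K) = x • Pi.single j 1 := by
      ext k; simp [Pi.single_apply]
    rw [this, map_smul, h3 j]; simp
  obtain ⟨τ, a, -, hsp, hli⟩ := exists_linearIndependent' K row
  have : Finite τ := hli.finite_of_isNoetherian
  have : Fintype τ := Fintype.ofFinite τ
  have hc : Fintype.card τ = Fintype.card κ := by
    rw [← finrank_span_eq_card hli, hsp, htop, finrank_top, finrank_fintype_fun_eq_card]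
  obtain ⟨e⟩ := Fintype.card_eq.1 hc
  refine ⟨fun i => a (e.symm i), ?_⟩
  have h4 : LinearIndependent K (Matrix.of fun i j => coeff (a (e.symm i)) (v j)).row :=
    hli.comp e.symm e.symm.injective
  exact ((Matrix.isUnit_iff_isUnit_det _).1 (Matrix.linearIndependent_rows_iff_isUnit.1 h4)).ne_zero

theorem li_of_minor {K : Type} [Field K] {κ : Type} [Fintype κ] [DecidableEq κ]
    (v : κ → MvPolynomial σ K) (s : κ → (σ →₀ ℕ))
    (h : (Matrix.of fun i j => coeff (s i) (v j)).det ≠ 0) : LinearIndependent K v := by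
  have h1 := Matrix.linearIndependent_cols_iff_isUnit.2
    ((Matrix.isUnit_iff_isUnit_det _).2 (Ne.isUnit h))
  exact LinearIndependent.of_comp (LinearMap.pi fun i => lcoeff K (s i)) h1

/-- spanning set of the degree `m` part of the ideal generated by `Y` -/
def gens {Λ : Type} [CommRing Λ] (Y : Set (MvPolynomial σ Λ)) (m : ℕ) : Set (MvPolynomial σ Λ) :=
  {z | z.IsHomogeneous m ∧ ∃ α, ∃ y ∈ Y, z = monomial α 1 * y}

theorem pc_span {Λ k : Type} [CommRing Λ] [Field k] (φ : Λ →+* k) (Y : Set (MvPolynomial σ Λ))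
    (hY : ∀ y ∈ Y, ∃ e, y.IsHomogeneous e) (m : ℕ) :
    pc (Ideal.span (map φ '' Y)) m = Submodule.span k (map φ '' gens Y m) := by
  apply le_antisymm
  · have key : ∀ z ∈ Ideal.span (map φ '' Y), ∀ r,
        homogeneousComponent m (r * z) ∈ Submodule.span k (map φ '' gens Y m) := by
      intro z hz
      induction hz using Submodule.span_induction with
      | mem y hy =>
        obtain ⟨y, hy, rfl⟩ := hy
        obtain ⟨e, he⟩ := hY y hy
        intro r
        induction r using MvPolynomial.induction_on' with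
        | monomial α c =>
          have h1 : (monomial α (1 : Λ) * y).IsHomogeneous (α.degree + e) :=
            (isHomogeneous_monomial 1 rfl).mul he
          have h2 : monomial α c * map φ y = c • map φ (monomial α 1 * y) := by
            rw [map_mul, map_monomial, map_one, ← smul_mul_assoc, smul_monomial, smul_eq_mul,
              mul_one]
          rw [h2, map_smul, homogeneousComponent_of_mem (h1.map φ)]
          split_ifs with h
          · exact Submodule.smul_mem _ _ (Submodule.subset_span ⟨_, ⟨h ▸ h1, α, y, hy, rfl⟩, rfl⟩)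
          · simp
        | add p q hp hq => rw [add_mul, map_add]; exact add_mem hp hq
      | zero => intro r; simp
      | add a b _ _ ha hb => intro r; rw [mul_add, map_add]; exact add_mem (ha r) (hb r)
      | smul a b _ hb => intro r; rw [smul_eq_mul, ← mul_assoc]; exact hb _
    intro z hz
    have := key z hz.2 1
    rwa [one_mul, homogeneousComponent_eq_self hz.1] at this
  · rw [Submodule.span_le]
    rintro _ ⟨_, ⟨h, α, y, hy, rfl⟩, rfl⟩
    refine ⟨h.map φ, ?_⟩
    change _ ∈ Ideal.span _
    rw [map_mul]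
    exact Ideal.mul_mem_left _ _ (Ideal.subset_span ⟨y, hy, rfl⟩)

/-- semicontinuity of Hilbert functions -/
theorem semicont [Fintype σ] {Λ k : Type} [CommRing Λ] [Field k] (φ : Λ →+* k)
    (Y : Set (MvPolynomial σ Λ)) (hY : ∀ y ∈ Y, ∃ e, y.IsHomogeneous e) (m : ℕ) :
    ∃ Δ : Λ, φ Δ ≠ 0 ∧ ∀ (K : Type) [Field K] (ψ : Λ →+* K), ψ Δ ≠ 0 →
      H (Ideal.span (map ψ '' Y)) m ≤ H (Ideal.span (map φ '' Y)) m := by
  classical
  obtain ⟨τ, a, -, hsp, hli⟩ := exists_linearIndependent' k
    (fun z : gens Y m => map φ z.1)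
  have hr : Set.range (fun z : gens Y m => map φ z.1) = map φ '' gens Y m := by
    ext z; simp
  rw [hr, ← pc_span φ Y hY] at hsp
  have hmem : ∀ t, map φ (a t).1 ∈ pc (Ideal.span (map φ '' Y)) m := fun t =>
    hsp ▸ Submodule.subset_span ⟨t, rfl⟩
  have : Finite τ := by
    have h1 : LinearIndependent k fun t => (⟨map φ (a t).1, hmem t⟩ :
        pc (Ideal.span (map φ '' Y)) m) :=
      LinearIndependent.of_comp (Submodule.subtype _) hli
    exact h1.finite_of_isNoetherian
  have : Fintype τ := Fintype.ofFinite τ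
  obtain ⟨s, hs⟩ := exists_minor _ hli
  refine ⟨(Matrix.of fun i j => coeff (s i) (a j).1).det, ?_, fun K _ ψ hψ => ?_⟩
  · rw [RingHom.map_det]
    have : φ.mapMatrix (Matrix.of fun i j => coeff (s i) (a j).1) =
        Matrix.of fun i j => coeff (s i) (map φ (a j).1) := by
      ext i j
      simp [coeff_map]
    rw [this]
    exact hs
  · have h2 : LinearIndependent K fun t => map ψ (a t).1 := by
      refine li_of_minor _ s ?_
      rw [RingHom.map_det] at hψ
      have : ψ.mapMatrix (Matrix.of fun i j => coeff (s i) (a j).1) =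
          Matrix.of fun i j => coeff (s i) (map ψ (a j).1) := by
        ext i j
        simp [coeff_map]
      rwa [this] at hψ
    have h3 : dI (Ideal.span (map φ '' Y)) m ≤ dI (Ideal.span (map ψ '' Y)) m := by
      unfold dI
      rw [← hsp, finrank_span_eq_card hli, ← finrank_span_eq_card h2]
      apply Submodule.finrank_mono
      rw [pc_span ψ Y hY]
      refine Submodule.span_mono ?_
      rintro _ ⟨t, rfl⟩
      exact ⟨_, (a t).2, rfl⟩
    unfold H
    rw [dI_top, dI_top]
    omega

theorem H_le_of_ker [Fintype σ] {Λ k K : Type} [CommRing Λ] [Field k] [Field K] (φ : Λ →+* k)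
    (ψ : Λ →+* K) (h : ∀ t, ψ t = 0 → φ t = 0)
    (Y : Set (MvPolynomial σ Λ)) (hY : ∀ y ∈ Y, ∃ e, y.IsHomogeneous e) (m : ℕ) :
    H (Ideal.span (map ψ '' Y)) m ≤ H (Ideal.span (map φ '' Y)) m := by
  obtain ⟨Δ, h1, h2⟩ := semicont φ Y hY m
  exact h2 K ψ fun h0 => h1 (h Δ h0)

theorem H_map [Fintype σ] {k K : Type} [Field k] [Field K] (ψ : k →+* K)
    (Y : Set (MvPolynomial σ k)) (hY : ∀ y ∈ Y, ∃ e, y.IsHomogeneous e) (m : ℕ) :
    H (Ideal.span (map ψ '' Y)) m = H (Ideal.span Y) m := by
  have h0 : map (RingHom.id k) '' Y = Y := by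
    ext z; simp [map_id]
  apply le_antisymm
  · have := H_le_of_ker (RingHom.id k) ψ (fun t ht => by simpa using ht) Y hY m
    rwa [h0] at this
  · have := H_le_of_ker ψ (RingHom.id k) (fun t ht => by simpa using ht) Y hY m
    rwa [h0] at this

theorem H_succ_zero [Finite σ] {K : Type} [Field K] {I : Ideal (MvPolynomial σ K)} {m : ℕ}
    (h : H I m = 0) : H I (m + 1) = 0 := by
  rw [H_eq_zero_iff] at h ⊢
  intro y hy
  have h1 : y ∈ homogeneousSubmodule σ K m * homogeneousSubmodule σ K 1 := by
    rw [← homogeneousSubmodule_one_pow, ← pow_succ, homogeneousSubmodule_one_pow]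
    exact hy
  refine Submodule.mul_induction_on h1 (fun a ha b _ => I.mul_mem_right _ (h a ha))
    fun a b ha hb => add_mem ha hb

theorem H_zero_of_le [Finite σ] {K : Type} [Field K] {I : Ideal (MvPolynomial σ K)} {m n : ℕ}
    (h : H I m = 0) (hn : m ≤ n) : H I n = 0 := by
  induction n, hn using Nat.le_induction with
  | base => exact h
  | succ n _ ih => exact H_succ_zero ih

end Pool.Agent.MP_4cdbcc_ag
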