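import Pool.Agent.MP_4cdbcc_ag.Lin

/-! Regular sequences, change of the base field, reduction to positive characteristic. -/

namespace Pool.Agent.MP_4cdbcc_ag

open MvPolynomial Module

variable {σ K : Type} [Field K]

theorem hs_of_regular [Fintype σ] {n : ℕ} {f : Fin n → MvPolynomial σ K} {a : Fin n → ℕ}
    (hf : ∀ i, (f i).IsHomogeneous (a i))
    (hr : RingTheory.Sequence.IsRegular (MvPolynomial σ K) (List.ofFn f)) :
    HS (Ideal.span (Set.range f)) = (∏ i, (1 - PowerSeries.X ^ a i)) * T0 (Fintype.card σ) := by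
  have hw := hr.toIsWeaklyRegular
  rw [RingTheory.Sequence.isWeaklyRegular_iff] at hw
  have key : ∀ k ≤ n, HS (Ideal.span (f '' {i | i.val < k})) =
      (∏ i ∈ Finset.univ.filter (fun i : Fin n => i.val < k), (1 - PowerSeries.X ^ a i)) *
        T0 (Fintype.card σ) := by
    intro k
    induction k with
    | zero => intro _; simp [HS_bot]
    | succ k ih =>
      intro hk
      have e0 : Ideal.ofList ((List.ofFn f).take k) = Ideal.span (f '' {i | i.val < k}) := by
        unfold Ideal.ofList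
        congr 1
        ext r
        simp only [List.mem_take_iff_getElem, List.length_ofFn, List.getElem_ofFn, Set.mem_image,
          Set.mem_ofPred_eq]
        constructor
        · rintro ⟨i, hi, rfl⟩
          exact ⟨_, by simpa using (lt_min_iff.1 hi).1, rfl⟩
        · rintro ⟨i, hi, rfl⟩
          exact ⟨i, lt_min hi i.2, rfl⟩
      have h1 := hw k (by simpa using hk)
      rw [isSMulRegular_quotient_iff_mem_of_smul_mem, e0, List.getElem_ofFn] at h1
      have h2 : NZ (Ideal.span (f '' {i | i.val < k})) (f ⟨k, hk⟩) := by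
        intro r hr
        have := h1 r (by simpa [mul_comm] using hr)
        simpa using this
      have e1 : Ideal.span (f '' {i | i.val < k + 1}) =
          Ideal.span (f '' {i | i.val < k}) ⊔ Ideal.span {f ⟨k, hk⟩} := by
        rw [sup_comm, ← Ideal.span_insert, ← Set.image_insert_eq]
        congr 2
        ext i
        simp only [Set.mem_ofPred_eq, Set.mem_insert_iff, Fin.ext_iff]
        omega
      have e2 : Finset.univ.filter (fun i : Fin n => i.val < k + 1) =
          insert ⟨k, hk⟩ (Finset.univ.filter (fun i : Fin n => i.val < k)) := by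
        ext i
        simp only [Finset.mem_filter, Finset.mem_univ, true_and, Finset.mem_insert, Fin.ext_iff]
        omega
      rw [e1, HS_sup_nz (hom_span _ (by rintro _ ⟨i, _, rfl⟩; exact ⟨_, hf i⟩)) (hf _) h2,
        ih (by omega), e2, Finset.prod_insert (by simp), mul_assoc]
  have h := key n le_rfl
  have e1 : {i : Fin n | i.val < n} = Set.univ := by ext i; simp
  have e2 : Finset.univ.filter (fun i : Fin n => i.val < n) = Finset.univ := by ext i; simp
  rwa [e1, e2, Set.image_univ] at h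

theorem ci_fin [Fintype σ] {ι : Type} [Fintype ι] (hn : Fintype.card σ = Fintype.card ι)
    {I : Ideal (MvPolynomial σ K)} (hI : Hom I) {a : ι → ℕ}
    (hS : HS I = (∏ i, (1 - PowerSeries.X ^ a i)) * T0 (Fintype.card σ)) :
    Module.Finite K (MvPolynomial σ K ⧸ I) ∧
      (finrank K (MvPolynomial σ K ⧸ I) : ℤ) = ∏ i, (a i : ℤ) ∧
        ∀ m, ∑ i, (a i - 1) < m → H I m = 0 := by
  have h1 := num_eq a 0
  rw [add_zero, ← hn, ← hS, T0, pow_zero, mul_one] at h1
  obtain ⟨h2, h3, h4⟩ := finrank_of_poly hI h1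
  exact ⟨h2, by rw [h3, num_eval], fun m hm => h4 m ((num_deg a).trans_lt hm)⟩

theorem hom_range {R ι : Type} [CommRing R] {f : ι → MvPolynomial σ R} {a : ι → ℕ}
    (hf : ∀ i, (f i).IsHomogeneous (a i)) : ∀ y ∈ Set.range f, ∃ e, y.IsHomogeneous e := by
  rintro _ ⟨i, rfl⟩
  exact ⟨_, hf i⟩

theorem hom_insert {R : Type} [CommRing R] {Y : Set (MvPolynomial σ R)}
    (hY : ∀ y ∈ Y, ∃ e, y.IsHomogeneous e) {g : MvPolynomial σ R} {D : ℕ}
    (hg : g.IsHomogeneous D) : ∀ y ∈ insert g Y, ∃ e, y.IsHomogeneous e := by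
  rintro y (rfl | hy)
  exacts [⟨D, hg⟩, hY y hy]

theorem span_ins {R S : Type} [CommRing R] [CommRing S] {ι : Type} (ψ : R → S) (f : ι → R)
    (g : R) : Ideal.span (Set.range fun i => ψ (f i)) ⊔ Ideal.span {ψ g} =
      Ideal.span (ψ '' insert g (Set.range f)) := by
  rw [Set.image_insert_eq, Ideal.span_insert, sup_comm, ← Set.range_comp]
  rfl

theorem red_ext [Fintype σ] {ι K' : Type} [Fintype ι] [Field K'] (ψ : K →+* K')
    (hn : Fintype.card σ = Fintype.card ι) {f : ι → MvPolynomial σ K} {a : ι → ℕ}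
    (hf : ∀ i, (f i).IsHomogeneous (a i)) {g : MvPolynomial σ K} {D : ℕ} (hg : g.IsHomogeneous D)
    (hS : HS (Ideal.span (Set.range f)) =
      (∏ i, (1 - PowerSeries.X ^ a i)) * T0 (Fintype.card σ))
    (hg' : g ∉ Ideal.span (Set.range f)) :
    HS (Ideal.span (Set.range fun i => map ψ (f i))) =
      (∏ i, (1 - PowerSeries.X ^ a i)) * T0 (Fintype.card σ) ∧
    map ψ g ∉ Ideal.span (Set.range fun i => map ψ (f i)) ∧
    finrank K (MvPolynomial σ K ⧸ (Ideal.span (Set.range f) ⊔ Ideal.span {g})) =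
      finrank K' (MvPolynomial σ K' ⧸
        (Ideal.span (Set.range fun i => map ψ (f i)) ⊔ Ideal.span {map ψ g})) := by
  have e : (Set.range fun i => map ψ (f i)) = map ψ '' Set.range f := by
    rw [← Set.range_comp]; rfl
  refine ⟨?_, ?_, ?_⟩
  · rw [← hS, e]
    ext m
    simp only [HS, PowerSeries.coeff_mk]
    exact H_map ψ _ (hom_range hf) m
  · rw [e]
    exact notMem_map ψ _ (hom_range hf) hg hg'
  · have h0 := (ci_fin hn (hom_span _ (hom_range hf)) hS).2.2 _ (Nat.lt_succ_self _)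
    have h1 : H (Ideal.span (insert g (Set.range f))) (∑ i, (a i - 1)).succ = 0 :=
      le_antisymm (h0 ▸ H_anti (Ideal.span_mono (Set.subset_insert _ _)) _) (H_nonneg _ _)
    rw [span_ins (map ψ) f g, (len_map ψ _ (hom_insert (hom_range hf) hg) h1).2.2, sup_comm,
      ← Ideal.span_insert]

theorem jac_int : IsJacobsonRing ℤ := by
  rw [isJacobsonRing_iff_prime_eq]
  intro P hP
  by_cases h : P = ⊥
  · subst h
    rw [eq_bot_iff]
    intro x hx
    rw [Ideal.mem_jacobson_bot] at hx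
    have h1 := Int.isUnit_iff.1 (hx (3 * x))
    rw [Ideal.mem_bot]
    rcases h1 with h1 | h1 <;> nlinarith
  · have := Ring.DimensionLEOne.maximalOfPrime h hP
    exact Ideal.jacobson_eq_self_of_isMaximal

theorem exists_spec {Λ : Type} [CommRing Λ] [IsDomain Λ] [Algebra.FiniteType ℤ Λ] [CharZero Λ]
    {Δ : Λ} (hΔ : Δ ≠ 0) (N : ℕ) :
    ∃ (k : Type) (_ : Field k) (p : ℕ) (_ : Fact p.Prime) (_ : CharP k p) (φ : Λ →+* k),
      N < p ∧ φ Δ ≠ 0 := by
  have := jac_int
  have hJ : IsJacobsonRing Λ := isJacobsonRing_of_finiteType (A := ℤ)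
  have h1 : Δ * (N.factorial : Λ) ∉ (⊥ : Ideal Λ).jacobson := by
    rw [hJ.out Ideal.isRadical_bot, Ideal.mem_bot]
    exact mul_ne_zero hΔ (Nat.cast_ne_zero.2 N.factorial_ne_zero)
  rw [Ideal.jacobson, Ideal.mem_sInf] at h1
  push Not at h1
  obtain ⟨M, ⟨-, hM⟩, h2⟩ := h1
  let _ : Field (Λ ⧸ M) := Ideal.Quotient.field M
  have h3 : Module.Finite ℤ (Λ ⧸ M) := finite_of_finite_type_of_isJacobsonRing ℤ (Λ ⧸ M)
  have h4 : Ideal.Quotient.mk M (Δ * (N.factorial : Λ)) ≠ 0 :=
    mt Ideal.Quotient.eq_zero_iff_mem.1 h2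
  rw [map_mul, map_natCast] at h4
  obtain ⟨p, hp⟩ := CharP.exists (Λ ⧸ M)
  rcases CharP.char_is_prime_or_zero (Λ ⧸ M) p with h | h
  · refine ⟨Λ ⧸ M, inferInstance, p, ⟨h⟩, hp, Ideal.Quotient.mk M, ?_, left_ne_zero_of_mul h4⟩
    by_contra hc
    exact right_ne_zero_of_mul h4 ((CharP.cast_eq_zero_iff _ p _).2
      (Nat.dvd_factorial h.pos (not_lt.1 hc)))
  · subst h
    have := CharP.charP_to_charZero (Λ ⧸ M)
    exact absurd (isField_of_isIntegral_of_isField (R := ℤ) (S := Λ ⧸ M)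
      (algebraMap ℤ (Λ ⧸ M)).injective_int (Field.toIsField _)) Int.not_isField

theorem red_zero [Fintype σ] [CharZero K] {ι : Type} [Fintype ι] (N : ℕ)
    (hn : Fintype.card σ = Fintype.card ι) {f : ι → MvPolynomial σ K} {a : ι → ℕ}
    (hf : ∀ i, (f i).IsHomogeneous (a i)) {g : MvPolynomial σ K} {D : ℕ} (hg : g.IsHomogeneous D)
    (hS : HS (Ideal.span (Set.range f)) =
      (∏ i, (1 - PowerSeries.X ^ a i)) * T0 (Fintype.card σ))
    (hg' : g ∉ Ideal.span (Set.range f)) :
    ∃ (k : Type) (_ : Field k) (p : ℕ) (_ : Fact p.Prime) (_ : CharP k p)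
      (f' : ι → MvPolynomial σ k) (g' : MvPolynomial σ k), N < p ∧
      (∀ i, (f' i).IsHomogeneous (a i)) ∧ g'.IsHomogeneous D ∧
      HS (Ideal.span (Set.range f')) = (∏ i, (1 - PowerSeries.X ^ a i)) * T0 (Fintype.card σ) ∧
      g' ∉ Ideal.span (Set.range f') ∧
      finrank K (MvPolynomial σ K ⧸ (Ideal.span (Set.range f) ⊔ Ideal.span {g})) ≤
        finrank k (MvPolynomial σ k ⧸ (Ideal.span (Set.range f') ⊔ Ideal.span {g'})) := by
  classical
  let s : Finset K := g.coeffs ∪ Finset.univ.biUnion fun i => (f i).coeffs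
  let Λ := Algebra.adjoin ℤ (s : Set K)
  have hft : Algebra.FiniteType ℤ Λ :=
    (Subalgebra.fg_iff_finiteType _).1 (Subalgebra.fg_adjoin_finset s)
  let j : Λ →+* K := Λ.val.toRingHom
  have hj : Function.Injective j := Subtype.val_injective
  have hl : ∀ y : MvPolynomial σ K, y.coeffs ⊆ s → ∃ y₀ : MvPolynomial σ Λ, map j y₀ = y := by
    intro y hy
    have : y ∈ Set.range (map j) := by
      rw [mem_range_map_iff_coeffs_subset]
      intro t ht
      exact ⟨⟨t, Algebra.subset_adjoin (hy ht)⟩, rfl⟩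
    exact this
  obtain ⟨g₀, hg₀⟩ := hl g Finset.subset_union_left
  choose f₀ hf₀ using fun i => hl (f i) ((Finset.subset_biUnion_of_mem (fun i => (f i).coeffs)
    (Finset.mem_univ i)).trans Finset.subset_union_right)
  have hf1 : ∀ i, (f₀ i).IsHomogeneous (a i) := fun i =>
    IsHomogeneous.of_map hj (by rw [hf₀]; exact hf i)
  have hg1 : g₀.IsHomogeneous D := IsHomogeneous.of_map hj (by rw [hg₀]; exact hg)
  have ef : f = fun i => map j (f₀ i) := by ext1 i; rw [hf₀]
  have er : ∀ {k : Type} [Field k] (φ : Λ →+* k),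
      (Set.range fun i => map φ (f₀ i)) = map φ '' Set.range f₀ := by
    intro k _ φ
    rw [← Set.range_comp]; rfl
  set M := (∑ i, (a i - 1)).succ with hM
  have h0 := (ci_fin hn (hom_span _ (hom_range hf)) hS).2.2 M (Nat.lt_succ_self _)
  choose Δ hΔ hΔ' using fun m => semicont j _ (hom_range hf1) m
  obtain ⟨Δ₁, h1, h1'⟩ := semicont j _ (hom_insert (hom_range hf1) hg1) D
  have h2 : Δ₁ * ∏ m ∈ Finset.range (M + 1), Δ m ≠ 0 :=
    mul_ne_zero (fun h => h1 (by rw [h, map_zero]))
      (Finset.prod_ne_zero_iff.2 fun m _ h => hΔ m (by rw [h, map_zero]))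
  obtain ⟨k, _, p, hp, hc, φ, hN, hφ⟩ := exists_spec h2 N
  rw [map_mul, map_prod] at hφ
  have h3 := Finset.prod_ne_zero_iff.1 (right_ne_zero_of_mul hφ)
  have hker : ∀ t, j t = 0 → φ t = 0 := fun t ht => by
    rw [hj (ht.trans (map_zero j).symm), map_zero]
  rw [ef, er] at h0 hS hg'
  rw [← hg₀] at hg'
  have h4 : ∀ m, H (Ideal.span (map φ '' Set.range f₀)) m =
      H (Ideal.span (map j '' Set.range f₀)) m := by
    intro m
    refine le_antisymm ?_ (H_le_of_ker φ j hker _ (hom_range hf1) m)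
    by_cases hm : m ≤ M
    · exact hΔ' m k φ (h3 m (Finset.mem_range.2 (by omega)))
    · have h5 : H (Ideal.span (map φ '' Set.range f₀)) M = 0 :=
        le_antisymm (h0 ▸ hΔ' M k φ (h3 M (Finset.mem_range.2 (by omega)))) (H_nonneg _ _)
      rw [H_zero_of_le h5 (by omega)]
      exact H_nonneg _ _
  refine ⟨k, inferInstance, p, hp, hc, fun i => map φ (f₀ i), map φ g₀, hN,
    fun i => (hf1 i).map φ, hg1.map φ, ?_, ?_, ?_⟩
  · rw [← hS, er]
    ext m
    simp only [HS, PowerSeries.coeff_mk]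
    exact h4 m
  · rw [notMem_of_H (hg1.map φ), span_ins (map φ), er, h4]
    rw [notMem_of_H (hg1.map j), ← er, span_ins (map j), er] at hg'
    exact (h1' k φ (left_ne_zero_of_mul hφ)).trans_lt hg'
  · rw [ef, ← hg₀, span_ins (map φ), span_ins (map j)]
    have hh := hom_insert (hom_range hf1) hg1
    have z : ∀ {k : Type} [Field k] (φ : Λ →+* k), H (Ideal.span (map φ '' Set.range f₀)) M = 0 →
        (finrank k (MvPolynomial σ k ⧸ Ideal.span (map φ '' insert g₀ (Set.range f₀))) : ℤ) =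
          ∑ m ∈ Finset.range M, H (Ideal.span (map φ '' insert g₀ (Set.range f₀))) m := by
      intro k _ φ h
      refine (finrank_quot (hom_span _ ?_) fun m hm => H_zero_of_le ?_ hm).2
      · rintro _ ⟨y, hy, rfl⟩
        obtain ⟨e, he⟩ := hh y hy
        exact ⟨e, he.map φ⟩
      · exact le_antisymm (h ▸ H_anti (Ideal.span_mono (Set.image_mono (Set.subset_insert _ _))) _)
          (H_nonneg _ _)
    have z1 := z j h0
    have z2 := z φ (by rw [h4, h0])
    have z3 : ∑ m ∈ Finset.range M, H (Ideal.span (map j '' insert g₀ (Set.range f₀))) m ≤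
        ∑ m ∈ Finset.range M, H (Ideal.span (map φ '' insert g₀ (Set.range f₀))) m :=
      Finset.sum_le_sum fun m _ => H_le_of_ker φ j hker _ hh m
    omega

end Pool.Agent.MP_4cdbcc_ag
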