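import Pool.Agent.MP_4cdbcc_ag.Reduce

/-! The socle of a complete intersection and symmetry of Hilbert functions of links. -/

namespace Pool.Agent.MP_4cdbcc_ag

open MvPolynomial Module

variable {σ K : Type} [Field K]

theorem hc_sup {I : Ideal (MvPolynomial σ K)} (hI : Hom I) {u y : MvPolynomial σ K} {e m : ℕ}
    (hu : u.IsHomogeneous e) (hy : y.IsHomogeneous m) (h : y ∈ I ⊔ Ideal.span {u}) :
    (m < e ∧ y ∈ I) ∨ (e ≤ m ∧ ∃ z : MvPolynomial σ K, z.IsHomogeneous (m - e) ∧ y - z * u ∈ I) := by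
  obtain ⟨a, ha, b, hb, rfl⟩ := Submodule.mem_sup.1 h
  obtain ⟨r, rfl⟩ := Ideal.mem_span_singleton'.1 hb
  have h1 := homogeneousComponent_eq_self hy
  rw [map_add, hc_mul hu] at h1
  by_cases he : e ≤ m
  · rw [if_pos he] at h1
    refine Or.inr ⟨he, _, homogeneousComponent_isHomogeneous (m - e) r, ?_⟩
    rw [← h1, add_sub_cancel_right]
    exact hI m a ha
  · rw [if_neg he, add_zero] at h1
    exact Or.inl ⟨by omega, h1 ▸ hI m a ha⟩

/-- the socle is concentrated in degree `s` -/
def Soc (I : Ideal (MvPolynomial σ K)) (s : ℕ) : Prop :=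
  ∀ (m : ℕ) (y : MvPolynomial σ K), y.IsHomogeneous m → m ≠ s →
    (∀ l : MvPolynomial σ K, l.IsHomogeneous 1 → l * y ∈ I) → y ∈ I

theorem soc_step {I : Ideal (MvPolynomial σ K)} (hI : Hom I) {u l : MvPolynomial σ K} {e s : ℕ}
    (hu : u.IsHomogeneous e) (hl : l.IsHomogeneous 1) (he : 1 ≤ e) (nu : NZ I u) (nl : NZ I l)
    (h : Soc (I ⊔ Ideal.span {l}) s) : Soc (I ⊔ Ideal.span {u}) (s + (e - 1)) := by
  intro m y hy hm hs
  rcases hc_sup hI hu (hl.mul hy) (hs l hl) with ⟨-, h1⟩ | ⟨h1, z, hz, h2⟩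
  · exact Ideal.mem_sup_left (nl y (by rwa [mul_comm]))
  · have h3 : z ∈ I ⊔ Ideal.span {l} := by
      refine h _ z hz (by omega) fun x hx => ?_
      obtain ⟨a, ha, b, hb, e1⟩ := Submodule.mem_sup.1 (hs x hx)
      obtain ⟨w, rfl⟩ := Ideal.mem_span_singleton'.1 hb
      have h4 : x * z - w * l ∈ I := by
        apply nu
        have : (x * z - w * l) * u = l * a - x * (l * y - z * u) := by
          linear_combination (-l) * e1
        rw [this]
        exact sub_mem (I.mul_mem_left _ ha) (I.mul_mem_left _ h2)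
      have : x * z = (x * z - w * l) + w * l := by ring
      rw [this]
      exact add_mem (Ideal.mem_sup_left h4)
        (Ideal.mem_sup_right (Ideal.mem_span_singleton'.2 ⟨w, rfl⟩))
    obtain ⟨a, ha, b, hb, rfl⟩ := Submodule.mem_sup.1 h3
    obtain ⟨w, rfl⟩ := Ideal.mem_span_singleton'.1 hb
    have h5 : y - w * u ∈ I := by
      apply nl
      have : (y - w * u) * l = (l * y - (a + w * l) * u) + a * u := by ring
      rw [this]
      exact add_mem h2 (I.mul_mem_right _ ha)
    have : y = (y - w * u) + w * u := by ring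
    rw [this]
    exact add_mem (Ideal.mem_sup_left h5)
      (Ideal.mem_sup_right (Ideal.mem_span_singleton'.2 ⟨w, rfl⟩))

theorem span_erase {R ι : Type} [CommRing R] [Fintype ι] [DecidableEq ι] (f : ι → R) (i : ι) :
    Ideal.span (Set.range f) =
      Ideal.span (f '' (Finset.univ.erase i : Finset ι)) ⊔ Ideal.span {f i} := by
  rw [sup_comm, ← Ideal.span_insert, ← Set.image_insert_eq, ← Finset.coe_insert,
    Finset.insert_erase (Finset.mem_univ i), Finset.coe_univ, Set.image_univ]

theorem soc_ci [Fintype σ] [Infinite K] {ι : Type} [Fintype ι]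
    (hn : Fintype.card σ = Fintype.card ι) (N : ℕ) :
    ∀ (a : ι → ℕ) (f : ι → MvPolynomial σ K), ∑ i, (a i - 1) = N → (∀ i, 1 ≤ a i) →
      (∀ i, (f i).IsHomogeneous (a i)) →
      HS (Ideal.span (Set.range f)) = (∏ i, (1 - PowerSeries.X ^ a i)) * T0 (Fintype.card σ) →
      Soc (Ideal.span (Set.range f)) N := by
  classical
  induction N using Nat.strong_induction_on with
  | _ N ih =>
    intro a f hN ha hf hS
    by_cases h1 : ∃ i, 2 ≤ a i
    · obtain ⟨i, hi⟩ := h1
      set I := Ideal.span (f '' (Finset.univ.erase i : Finset ι)) with hI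
      have hH : Hom I := hom_span _ (by rintro _ ⟨j, _, rfl⟩; exact ⟨_, hf j⟩)
      set T := (∏ j ∈ Finset.univ.erase i, (1 - PowerSeries.X ^ a j)) * T0 (Fintype.card σ) with hT
      have h2 := (steps f a hf ha hom_bot (T := T0 (Fintype.card σ)) (Finset.univ.erase i)).2
        (by rw [HS_bot, sub_self])
      rw [bot_sup_eq] at h2
      rw [span_erase f i, ← Finset.mul_prod_erase _ _ (Finset.mem_univ i), mul_assoc] at hS
      have h3 : HS I - T = 0 ∧ NZ I (f i) := by
        rcases step hH (hf i) (ha i) h2 with h3 | h3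
        · exact ⟨h3.1, h3.2.1⟩
        · rw [hS, sub_self] at h3
          exact absurd h3 (not_pos (by simp))
      obtain ⟨l, hl, nl, -⟩ := exists_lin (hf i) (hf i) (ha i) (ha i) h3.2 h3.2
      have e1 : Function.update f i l '' (Finset.univ.erase i : Finset ι) =
          f '' (Finset.univ.erase i : Finset ι) :=
        Set.image_congr fun j hj => Function.update_of_ne (by simpa using hj) _ _
      have e2 : ∑ j ∈ Finset.univ.erase i, (Function.update a i 1 j - 1) =
          ∑ j ∈ Finset.univ.erase i, (a j - 1) :=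
        Finset.sum_congr rfl fun j hj => by rw [Function.update_of_ne (by simpa using hj)]
      have e3 : ∏ j ∈ Finset.univ.erase i,
          (1 - PowerSeries.X ^ Function.update a i 1 j : PowerSeries ℤ) =
          ∏ j ∈ Finset.univ.erase i, (1 - PowerSeries.X ^ a j) :=
        Finset.prod_congr rfl fun j hj => by rw [Function.update_of_ne (by simpa using hj)]
      rw [← Finset.sum_erase_add _ _ (Finset.mem_univ i)] at hN
      have h4 := ih (∑ j ∈ Finset.univ.erase i, (a j - 1)) (by omega) (Function.update a i 1)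
        (Function.update f i l)
        (by rw [← Finset.sum_erase_add _ _ (Finset.mem_univ i), e2]; simp)
        (fun j => by
          by_cases h : j = i
          · subst h; simp
          · rw [Function.update_of_ne h]; exact ha j)
        (fun j => by
          by_cases h : j = i
          · subst h; simpa using hl
          · rw [Function.update_of_ne h, Function.update_of_ne h]; exact hf j)
        (by
          rw [span_erase _ i, e1, ← Finset.mul_prod_erase _ _ (Finset.mem_univ i), e3,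
            Function.update_self, Function.update_self, HS_sup_nz hH hl nl, sub_eq_zero.1 h3.1,
            mul_assoc])
      rw [span_erase _ i, e1, Function.update_self] at h4
      rw [span_erase f i, ← hN]
      exact soc_step hH (hf i) hl (ha i) h3.2 nl h4
    · have h2 : N = 0 := by
        rw [← hN]
        refine Finset.sum_eq_zero fun i _ => ?_
        have := not_exists.1 h1 i
        omega
      intro m y hy hm _
      exact H_eq_zero_iff.1
        ((ci_fin hn (hom_span _ (hom_range hf)) hS).2.2 m (by omega)) y hy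

theorem Soc.ex {I : Ideal (MvPolynomial σ K)} {s : ℕ} (h : Soc I s) (k : ℕ) :
    ∀ (m : ℕ) (y : MvPolynomial σ K), y.IsHomogeneous m → m + k = s → y ∉ I →
      ∃ z : MvPolynomial σ K, z.IsHomogeneous k ∧ y * z ∉ I := by
  induction k with
  | zero => exact fun m y _ _ hy => ⟨1, isHomogeneous_one _ _, by rwa [mul_one]⟩
  | succ k ih =>
    intro m y hy hm hn
    have h1 := mt (h m y hy (by omega)) hn
    push Not at h1
    obtain ⟨l, hl, h2⟩ := h1
    obtain ⟨z, hz, h3⟩ := ih (1 + m) _ (hl.mul hy) (by omega) h2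
    exact ⟨z * l, hz.mul hl, by rwa [← mul_assoc, mul_comm _ l, ← mul_assoc]⟩

theorem num_top {ι : Type} [Fintype ι] (d : ι → ℕ) (hd : ∀ i, 1 ≤ d i) :
    (num d).coeff (∑ i, (d i - 1)) = 1 := by
  have h1 : ∀ i, (∑ j ∈ Finset.range (d i), (Polynomial.X : Polynomial ℤ) ^ j).Monic ∧
      (∑ j ∈ Finset.range (d i), (Polynomial.X : Polynomial ℤ) ^ j).natDegree = d i - 1 := by
    intro i
    have h2 := Polynomial.monic_geom_sum_X (R := ℤ) (n := d i) (by have := hd i; omega)
    refine ⟨h2, ?_⟩
    have h3 := congrArg Polynomial.natDegree (geom_sum_mul (Polynomial.X : Polynomial ℤ) (d i))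
    rw [← Polynomial.C_1, h2.natDegree_mul (Polynomial.monic_X_sub_C 1),
      Polynomial.natDegree_X_sub_C, Polynomial.natDegree_X_pow_sub_C] at h3
    omega
  have h4 : (num d).Monic := Polynomial.monic_prod_of_monic _ _ fun i _ => (h1 i).1
  have h5 : (num d).natDegree = ∑ i, (d i - 1) := by
    rw [num, Polynomial.natDegree_prod_of_monic _ _ fun i _ => (h1 i).1]
    exact Finset.sum_congr rfl fun i _ => (h1 i).2
  rw [← h5]
  exact h4.coeff_natDegree

theorem ci_top [Fintype σ] {ι : Type} [Fintype ι] (hn : Fintype.card σ = Fintype.card ι)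
    {I : Ideal (MvPolynomial σ K)} {a : ι → ℕ} (ha : ∀ i, 1 ≤ a i)
    (hS : HS I = (∏ i, (1 - PowerSeries.X ^ a i)) * T0 (Fintype.card σ)) :
    H I (∑ i, (a i - 1)) = 1 := by
  have h1 := num_eq a 0
  rw [add_zero, ← hn, ← hS, T0, pow_zero, mul_one] at h1
  have := congrArg (PowerSeries.coeff (∑ i, (a i - 1))) h1
  rwa [HS, PowerSeries.coeff_mk, Polynomial.coeff_coe, num_top a ha] at this

theorem exists_fun [Finite σ] {I : Ideal (MvPolynomial σ K)} (hI : Hom I) {s : ℕ}
    (h : H I s = 1) : ∃ τ : MvPolynomial σ K →ₗ[K] K, (∀ y ∈ I, τ y = 0) ∧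
      ∀ y : MvPolynomial σ K, y.IsHomogeneous s → τ y = 0 → y ∈ I := by
  have h1 := mt (H_eq_zero_iff (I := I) (m := s)).2 (by omega)
  push Not at h1
  obtain ⟨u, hu, hu'⟩ := h1
  obtain ⟨τ, h2, h3⟩ := Submodule.exists_le_ker_of_notMem (p := I.restrictScalars K) hu'
  refine ⟨τ, fun y hy => h3 hy, fun y hy h0 => ?_⟩
  have h4 := (notMem_of_H hu).1 hu'
  have h5 := H_nonneg (I ⊔ Ideal.span {u}) s
  rcases hc_sup hI hu hy (H_eq_zero_iff.1 (by omega) y hy) with ⟨-, h6⟩ | ⟨-, z, hz, h6⟩
  · exact h6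
  · rw [Nat.sub_self, ← totalDegree_zero_iff_isHomogeneous, totalDegree_eq_zero_iff_eq_C] at hz
    have h7 : τ (y - z * u) = 0 := h3 h6
    rw [hz, C_mul', map_sub, map_smul, h0, zero_sub, neg_eq_zero, smul_eq_mul,
      mul_eq_zero] at h7
    rw [hz, h7.resolve_right h2, C_0, zero_mul, sub_zero] at h6
    exact h6

/-- symmetry of the Hilbert function of a link -/
theorem symm_le [Finite σ] {I : Ideal (MvPolynomial σ K)} (hI : Hom I) {s : ℕ} (hs : Soc I s)
    (h : H I s = 1) {g : MvPolynomial σ K} {D : ℕ} (hg : g.IsHomogeneous D) {i j : ℕ}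
    (hij : i + j + D = s) : H (I.colon {g}) i ≤ H (I.colon {g}) j := by
  obtain ⟨τ, h1, h2⟩ := exists_fun hI h
  let τ' : (MvPolynomial σ K ⧸ I.colon {g}) →ₗ[K] K :=
    (((I.colon {g}).restrictScalars K).liftQ (τ.comp (LinearMap.mulRight K g)) fun z hz =>
      h1 _ (mem_col.1 hz)).comp (Submodule.Quotient.restrictScalarsEquiv K _).symm.toLinearMap
  have hτ : ∀ y, τ' (Ideal.Quotient.mk _ y) = τ (y * g) := fun y => rfl
  let U := fun m => (homogeneousSubmodule σ K m).map
    (Ideal.Quotient.mkₐ K (I.colon {g})).toLinearMap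
  let β : U i →ₗ[K] U j →ₗ[K] K :=
    ((LinearMap.mul K (MvPolynomial σ K ⧸ I.colon {g})).compr₂ τ').domRestrict₁₂ (U i) (U j)
  have hβ : Function.Injective β := by
    rw [injective_iff_map_eq_zero]
    rintro ⟨_, y, hy, rfl⟩ h0
    by_contra hne
    have h3 : y * g ∉ I := fun hc =>
      hne (Subtype.ext (Ideal.Quotient.eq_zero_iff_mem.2 (mem_col.2 hc)))
    obtain ⟨z, hz, h4⟩ := hs.ex j _ _ (IsHomogeneous.mul hy hg) (by omega) h3
    refine h4 (h2 _ (hij ▸ ?_) ?_)
    · have := (IsHomogeneous.mul hy hg).mul hz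
      rwa [add_right_comm] at this
    · have h5 := LinearMap.congr_fun h0 ⟨_, z, hz, rfl⟩
      rw [mul_right_comm, ← hτ, map_mul]
      exact h5
  have : Module.Finite K (U j) := Module.Finite.map _ _
  have h6 := LinearMap.finrank_le_finrank_of_injective hβ
  rw [Module.finrank_linearMap_self] at h6
  rw [← finrank_piece, ← finrank_piece]
  exact_mod_cast h6

end Pool.Agent.MP_4cdbcc_ag
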